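import Pool.Agent.Y754.PF.Exp

/-!
# Close bases

There is no primitive solution whose three bases lie in one short interval.
-/

set_option autoImplicit false

namespace Pool.Agent.Y754.PF

/-- the integer lies in the interval from `N` to `N (1 + (log N) ^ (-κ))` -/
def InShort (κ : ℕ) (N : ℝ) (x : ℤ) : Prop := N ≤ (x : ℝ) ∧ (x : ℝ) ≤ N * (1 + 1 / Real.log N ^ κ)

theorem succ_pow_ge (A : ℤ) (hA : 0 ≤ A) (a : ℕ) : A ^ (a + 1) + (a + 1) * A ^ a ≤ (A + 1) ^ (a + 1) := by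
  induction a with
  | zero => simp
  | succ a ih =>
    have h1 : 0 ≤ A ^ a := by positivity
    calc A ^ (a + 1 + 1) + ((a + 1 : ℕ) + 1) * A ^ (a + 1)
        ≤ A ^ (a + 1 + 1) + ((a + 1 : ℕ) + 1) * A ^ (a + 1) + (a + 1) * A ^ a := by
          have : (0 : ℤ) ≤ (a + 1) * A ^ a := by positivity
          linarith
      _ = (A + 1) * (A ^ (a + 1) + (a + 1) * A ^ a) := by push_cast; ring
      _ ≤ (A + 1) * (A + 1) ^ (a + 1) := by
          have : 0 ≤ A + 1 := by omega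
          gcongr
      _ = _ := by ring

/-- the heart: ordered summands -/
theorem close_heart (N η : ℝ) (hN : 3 ≤ N) (hη : 0 ≤ η) (A B C : ℤ) (a b c : ℕ) (ha : 2 ≤ a)
    (hA : N ≤ A) (hA' : (A : ℝ) ≤ N * (1 + η)) (hB : N ≤ B) (hB' : (B : ℝ) ≤ N * (1 + η)) (hC : N ≤ C)
    (hC' : (C : ℝ) ≤ N * (1 + η)) (ea : (1 + η) ^ a ≤ 4 / 3) (eb : (1 + η) ^ b ≤ 4 / 3)
    (ec : (1 + η) ^ c ≤ 4 / 3) (h : A ^ a + B ^ b = C ^ c) (hle : B ^ b ≤ A ^ a) : False := by
  have hN0 : 0 < N := by linarith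
  have hA0 : (0 : ℝ) < A := by linarith
  have hB0 : (0 : ℝ) < B := by linarith
  have hC0 : (0 : ℝ) < C := by linarith
  have hR : (A : ℝ) ^ a + (B : ℝ) ^ b = (C : ℝ) ^ c := by exact_mod_cast h
  have hleR : (B : ℝ) ^ b ≤ (A : ℝ) ^ a := by exact_mod_cast hle
  have up : ∀ (P : ℤ) (p : ℕ), N ≤ P → (P : ℝ) ≤ N * (1 + η) → (1 + η) ^ p ≤ 4 / 3 →
      (P : ℝ) ^ p ≤ N ^ p * (4 / 3) := by
    intro P p h1 h2 h3
    calc (P : ℝ) ^ p ≤ (N * (1 + η)) ^ p := by
          have : (0 : ℝ) ≤ P := by linarith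
          gcongr
      _ = N ^ p * (1 + η) ^ p := mul_pow _ _ _
      _ ≤ _ := by gcongr
  have lo : ∀ (P : ℤ) (p : ℕ), N ≤ P → N ^ p ≤ (P : ℝ) ^ p := by
    intro P p h1
    gcongr
  have uA := up A a hA hA' ea
  have uB := up B b hB hB' eb
  have uC := up C c hC hC' ec
  have lA := lo A a hA
  have lB := lo B b hB
  have lC := lo C c hC
  have one : ∀ p : ℕ, 0 < N ^ p := fun p => by positivity
  -- the two exponents agree
  have hac : a = c := by
    rcases lt_trichotomy a c with hlt | heq | hgt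
    · exfalso
      have h1 : N ^ (a + 1) ≤ N ^ c := pow_le_pow_right₀ (by linarith) (by omega)
      rw [pow_succ] at h1
      have h2 := one a
      nlinarith
    · exact heq
    · exfalso
      have h1 : N ^ (c + 1) ≤ N ^ a := pow_le_pow_right₀ (by linarith) (by omega)
      rw [pow_succ] at h1
      have h2 := one c
      have h3 : 0 < (B : ℝ) ^ b := by positivity
      nlinarith
  subst hac
  have hba : b < a := by
    by_contra hcon
    push Not at hcon
    have h1 : N ^ a ≤ N ^ b := pow_le_pow_right₀ (by linarith) hcon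
    have h2 := one a
    linarith
  obtain ⟨k, rfl⟩ : ∃ k, a = k + 1 := ⟨a - 1, by omega⟩
  have hlt : A ^ (k + 1) < C ^ (k + 1) := by
    have : 0 < B ^ b := by
      have : 0 < B := by exact_mod_cast hB0
      positivity
    linarith
  have hCA : A + 1 ≤ C := by
    by_contra hcon
    have h1 : C ≤ A := by omega
    have h2 : 0 ≤ C := by exact_mod_cast hC0.le
    exact absurd (pow_le_pow_left₀ h2 h1 (k + 1)) (by omega)
  have hA0' : 0 ≤ A := by exact_mod_cast hA0.le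
  have h1 : (A + 1) ^ (k + 1) ≤ C ^ (k + 1) := pow_le_pow_left₀ (by omega) hCA _
  have h2 := succ_pow_ge A hA0' k
  have h3 : ((k : ℤ) + 1) * A ^ k ≤ B ^ b := by linarith
  have h4 : ((k : ℝ) + 1) * (A : ℝ) ^ k ≤ (B : ℝ) ^ b := by exact_mod_cast h3
  have h5 : N ^ b ≤ N ^ k := pow_le_pow_right₀ (by linarith) (by omega)
  have h6 := lo A k hA
  have h7 : (2 : ℝ) ≤ k + 1 := by exact_mod_cast ha
  have h8 := one k
  nlinarith

/-- **Close bases**, positive version -/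
theorem close_pos : ∃ (κ : ℕ) (N₀ : ℝ), ∀ (A B C : ℤ) (a b c : ℕ) (N : ℝ), N₀ ≤ N → InShort κ N A →
    InShort κ N B → InShort κ N C → PC A B C → 2 ≤ a → 2 ≤ b → 2 ≤ c → A ^ a + B ^ b ≠ C ^ c := by
  obtain ⟨D, κ, hD, hexp⟩ := exp_pos
  refine ⟨κ + 1, Real.exp (4 * D * 2 ^ κ + 3), ?_⟩
  intro A B C a b c N hN hA hB hC hpc ha hb hc h
  have hN0 : 0 < N := (Real.exp_pos _).trans_le hN
  have hlog : 4 * D * 2 ^ κ + 3 ≤ Real.log N := by
    rw [Real.le_log_iff_exp_le hN0]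
    exact hN
  have hD2 : 0 < 4 * D * 2 ^ κ := by positivity
  have hlog3 : 3 ≤ Real.log N := by linarith
  have hlog0 : 0 < Real.log N := by linarith
  have hN3 : 3 ≤ N := by
    have := Real.add_one_le_exp (4 * D * 2 ^ κ + 3)
    linarith
  obtain ⟨η, hη⟩ : ∃ η : ℝ, η = 1 / Real.log N ^ (κ + 1) := ⟨_, rfl⟩
  have hη0 : 0 ≤ η := by rw [hη]; positivity
  have hη1 : η ≤ 1 := by
    rw [hη, div_le_one (by positivity)]
    exact one_le_pow₀ (by linarith)
  unfold InShort at hA hB hC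
  rw [← hη] at hA hB hC
  obtain ⟨A1, A2⟩ := hA
  obtain ⟨B1, B2⟩ := hB
  obtain ⟨C1, C2⟩ := hC
  have two : N * (1 + η) ≤ 2 * N := by nlinarith
  have ge2 : ∀ P : ℤ, N ≤ P → 2 ≤ P := by
    intro P hP
    have : (2 : ℝ) ≤ P := by linarith
    exact_mod_cast this
  obtain ⟨x1, x2, x3⟩ := hexp A B C a b c (2 * N) (ge2 A A1) (ge2 B B1) (ge2 C C1) hpc ha hb hc h
    (A2.trans two) (B2.trans two) (C2.trans two)
  have hl2 : Real.log (2 * N) ≤ 2 * Real.log N := by
    have h1 : Real.log (2 * N) ≤ Real.log (N ^ 2) := Real.log_le_log (by positivity) (by nlinarith)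
    rw [Real.log_pow] at h1
    exact_mod_cast h1
  have hl0 : 0 ≤ Real.log (2 * N) := Real.log_nonneg (by linarith)
  have small : ∀ e : ℕ, (e : ℝ) ≤ D * Real.log (2 * N) ^ κ → (1 + η) ^ e ≤ 4 / 3 := by
    intro e he
    have h1 : (e : ℝ) * η ≤ 1 / 4 := by
      have h2 : (e : ℝ) ≤ D * (2 * Real.log N) ^ κ := by
        refine he.trans ?_
        gcongr
      calc (e : ℝ) * η ≤ D * (2 * Real.log N) ^ κ * η := by gcongr
        _ = D * 2 ^ κ / Real.log N := by
            rw [hη, mul_pow, pow_succ]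
            field_simp
        _ ≤ 1 / 4 := by
            rw [div_le_div_iff₀ hlog0 (by norm_num)]
            linarith
    have h3 : (1 + η) ^ e ≤ Real.exp ((e : ℝ) * η) := by
      rw [Real.exp_nat_mul]
      have := Real.add_one_le_exp η
      gcongr
      linarith
    have h4 : Real.exp ((e : ℝ) * η) ≤ 4 / 3 := by
      have h5 : 3 / 4 ≤ Real.exp (-((e : ℝ) * η)) := by
        have := Real.add_one_le_exp (-((e : ℝ) * η))
        linarith
      rw [Real.exp_neg] at h5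
      have h6 := Real.exp_pos ((e : ℝ) * η)
      rw [le_inv_comm₀ (by norm_num) h6] at h5
      norm_num at h5
      exact h5
    exact h3.trans h4
  rcases le_total (B ^ b) (A ^ a) with hle | hle
  · exact close_heart N η hN3 hη0 A B C a b c ha A1 A2 B1 B2 C1 C2 (small a x1) (small b x2) (small c x3) h hle
  · exact close_heart N η hN3 hη0 B A C b a c hb B1 B2 A1 A2 C1 C2 (small b x2) (small a x1) (small c x3)
      (by linarith) hle

/-- **Close bases** -/
theorem close_main : ∃ (κ : ℕ) (N₀ : ℝ), ∀ (x y z u v w : ℤ) (l m n : ℕ) (N : ℝ), N₀ ≤ N →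
    InShort κ N |x| → InShort κ N |y| → InShort κ N |z| → |u| = 1 → |v| = 1 → |w| = 1 →
    Int.gcd (Int.gcd x y) z = 1 → 2 ≤ l → 2 ≤ m → 2 ≤ n → u * x ^ l + v * y ^ m + w * z ^ n ≠ 0 := by
  obtain ⟨κ, N₀, h⟩ := close_pos
  refine ⟨κ, N₀, ?_⟩
  intro x y z u v w l m n N hN hx hy hz hu hv hw hg hl hm hn he
  obtain ⟨c1, c2, c3⟩ := pairwise_of_rel (by omega) (by omega) (by omega) hu hv hw he hg
  have c1' := cop_abs c1
  have c2' := cop_abs c2
  have c3' := cop_abs c3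
  have ab : ∀ (s r : ℤ) (k : ℕ), |s| = 1 → |s * r ^ k| = |r| ^ k := by
    intro s r k hs
    rw [abs_mul, hs, one_mul, abs_pow]
  have key : |x| ^ l + |y| ^ m = |z| ^ n ∨ |x| ^ l + |z| ^ n = |y| ^ m ∨ |y| ^ m + |z| ^ n = |x| ^ l := by
    have h1 := ab u x l hu
    have h2 := ab v y m hv
    have h3 := ab w z n hw
    rw [← h1, ← h2, ← h3]
    generalize u * x ^ l = X at he ⊢
    generalize v * y ^ m = Y at he ⊢
    generalize w * z ^ n = Z at he ⊢
    rcases abs_cases X with a1 | a1 <;> rcases abs_cases Y with a2 | a2 <;> rcases abs_cases Z with a3 | a3 <;> omega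
  rcases key with k | k | k
  · exact h _ _ _ _ _ _ N hN hx hy hz ⟨c1', c2', c3'⟩ hl hm hn k
  · exact h _ _ _ _ _ _ N hN hx hz hy ⟨c2', c1', c3'.symm⟩ hl hn hm k
  · exact h _ _ _ _ _ _ N hN hy hz hx ⟨c3', c1'.symm, c2'.symm⟩ hm hn hl k

end Pool.Agent.Y754.PF
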