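import Pool.Agent.Y754.PF.Fin

/-!
# Finiteness in polynomial families with equal normalised leading coefficients
-/

set_option autoImplicit false

namespace Pool.Agent.Y754.PF

open Polynomial Filter Topology

/-- a power of the logarithm is small -/
theorem log_small (D : ℝ) (k κ : ℕ) : Tendsto (fun t : ℕ => D * (k * Real.log t) ^ κ / t) atTop (𝓝 0) := by
  have h1 : Tendsto (fun x : ℝ => Real.log x ^ κ / x) atTop (𝓝 0) :=
    (Real.isLittleO_pow_log_id_atTop (n := κ)).tendsto_div_nhds_zero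
  have h2 := (h1.comp tendsto_natCast_atTop_atTop).const_mul (D * (k : ℝ) ^ κ)
  rw [mul_zero] at h2
  refine h2.congr fun t => ?_
  simp only [Function.comp_apply]
  rw [mul_pow]
  ring

/-- bounded exponents for large positive parameters -/
theorem half_bound (f g h : ℤ[X]) (hf : 0 < f.natDegree) (hg : 0 < g.natDegree) (hh : 0 < h.natDegree)
    (hfg : |f.leadingCoeff| ^ g.natDegree = |g.leadingCoeff| ^ f.natDegree)
    (hfh : |f.leadingCoeff| ^ h.natDegree = |h.leadingCoeff| ^ f.natDegree) :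
    ∃ B T : ℕ, ∀ t : ℕ, T ≤ t → ∀ (l m n : ℕ) (u v w : ℤ),
      Data (f.eval (t : ℤ)) (g.eval (t : ℤ)) (h.eval (t : ℤ)) l m n u v w → l ≤ B ∧ m ≤ B ∧ n ≤ B := by
  obtain ⟨D, κ, hD, hexp⟩ := exp_rel
  obtain ⟨F, dF, lF, aF, T1, pF⟩ := pos_norm f hf
  obtain ⟨G, dG, lG, aG, T2, pG⟩ := pos_norm g hg
  obtain ⟨H, dH, lH, aH, T3, pH⟩ := pos_norm h hh
  have hlc : f.leadingCoeff ≠ 0 := by
    intro h
    rw [leadingCoeff_eq_zero] at h
    rw [h] at hf
    simp at hf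
  obtain ⟨s, hs, s1, s2, s3⟩ := common_root f.leadingCoeff g.leadingCoeff h.leadingCoeff f.natDegree
    g.natDegree h.natDegree hf hlc hfg hfh
  have LF : (F.leadingCoeff : ℝ) = s ^ F.natDegree := by
    rw [lF, dF, ← s1, Int.cast_abs]
  have LG : (G.leadingCoeff : ℝ) = s ^ G.natDegree := by
    rw [lG, dG, ← s2, Int.cast_abs]
  have LH : (H.leadingCoeff : ℝ) = s ^ H.natDegree := by
    rw [lH, dH, ← s3, Int.cast_abs]
  obtain ⟨kf, hkf⟩ := val_le f
  obtain ⟨kg, hkg⟩ := val_le g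
  obtain ⟨kh, hkh⟩ := val_le h
  obtain ⟨k, hk⟩ : ∃ k, k = kf + kg + kh := ⟨_, rfl⟩
  have hL := log_small D k κ
  have dF' : 0 < F.natDegree := by rw [dF]; exact hf
  have dG' : 0 < G.natDegree := by rw [dG]; exact hg
  have dH' : 0 < H.natDegree := by rw [dH]; exact hh
  obtain ⟨B1, S1, c1⟩ := core2 F G H hs dF' dG' dH' LF LG LH _ hL
  obtain ⟨B2, S2, c2⟩ := core2 F H G hs dF' dH' dG' LF LH LG _ hL
  obtain ⟨B3, S3, c3⟩ := core2 G H F hs dG' dH' dF' LG LH LF _ hL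
  refine ⟨B1 + B2 + B3, T1 + T2 + T3 + S1 + S2 + S3 + 2, fun t ht l m n u v w hd => ?_⟩
  obtain ⟨d1, d2, d3, d4, d5, d6, d7, d8, d9⟩ := hd
  have F2 := pF t (by omega)
  have G2 := pG t (by omega)
  have H2 := pH t (by omega)
  have ef : |f.eval (t : ℤ)| = F.eval (t : ℤ) := by
    rw [← aF, abs_of_nonneg (by omega)]
  have eg : |g.eval (t : ℤ)| = G.eval (t : ℤ) := by
    rw [← aG, abs_of_nonneg (by omega)]
  have eh : |h.eval (t : ℤ)| = H.eval (t : ℤ) := by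
    rw [← aH, abs_of_nonneg (by omega)]
  have htt : |(t : ℤ)| ≤ (t : ℕ) := by rw [abs_of_nonneg (by omega)]
  have vb : ∀ (P : ℤ[X]) (j : ℕ), j ≤ k → |P.eval (t : ℤ)| ≤ ((t : ℕ) : ℤ) ^ j →
      ((|P.eval (t : ℤ)| : ℤ) : ℝ) ≤ (t : ℝ) ^ k := by
    intro P j hj hP
    have h1 : ((|P.eval (t : ℤ)| : ℤ) : ℝ) ≤ (t : ℝ) ^ j := by exact_mod_cast hP
    exact h1.trans (pow_le_pow_right₀ (by exact_mod_cast (show 1 ≤ t by omega)) hj)
  have b1 := vb f kf (by omega) (hkf t (by omega) t htt)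
  have b2 := vb g kg (by omega) (hkg t (by omega) t htt)
  have b3 := vb h kh (by omega) (hkh t (by omega) t htt)
  rw [Int.cast_abs] at b1 b2 b3
  have h1 := hexp (f.eval (t : ℤ)) (g.eval (t : ℤ)) (h.eval (t : ℤ)) u v w l m n ((t : ℝ) ^ k)
    (by rw [ef]; exact F2) (by rw [eg]; exact G2) (by rw [eh]; exact H2) d5 d6 d7 d8 d1 d2 d3 d9 b1 b2 b3
  rw [Real.log_pow] at h1
  obtain ⟨x1, x2, x3⟩ := h1
  obtain ⟨q1, q2, q3⟩ := pairwise_of_rel (by omega) (by omega) (by omega) d5 d6 d7 d9 d8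
  have q1' := cop_abs q1
  have q2' := cop_abs q2
  have q3' := cop_abs q3
  rw [ef, eg] at q1'
  rw [ef, eh] at q2'
  rw [eg, eh] at q3'
  have ab : ∀ (s r : ℤ) (k : ℕ), |s| = 1 → |s * r ^ k| = |r| ^ k := by
    intro s r k hs
    rw [abs_mul, hs, one_mul, abs_pow]
  have key : |f.eval (t : ℤ)| ^ l + |g.eval (t : ℤ)| ^ m = |h.eval (t : ℤ)| ^ n ∨
      |f.eval (t : ℤ)| ^ l + |h.eval (t : ℤ)| ^ n = |g.eval (t : ℤ)| ^ m ∨
      |g.eval (t : ℤ)| ^ m + |h.eval (t : ℤ)| ^ n = |f.eval (t : ℤ)| ^ l := by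
    have h1 := ab u (f.eval (t : ℤ)) l d5
    have h2 := ab v (g.eval (t : ℤ)) m d6
    have h3 := ab w (h.eval (t : ℤ)) n d7
    rw [← h1, ← h2, ← h3]
    generalize u * (f.eval (t : ℤ)) ^ l = X at d9 ⊢
    generalize v * (g.eval (t : ℤ)) ^ m = Y at d9 ⊢
    generalize w * (h.eval (t : ℤ)) ^ n = Z at d9 ⊢
    rcases abs_cases X with a1 | a1 <;> rcases abs_cases Y with a2 | a2 <;> rcases abs_cases Z with a3 | a3 <;> omega
  rw [ef, eg, eh] at key
  rcases key with e | e | e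
  · have := c1 t (by omega) l m n (by omega) (by omega) (by omega) x1 x2 x3 F2 G2 q2' q3' e
    omega
  · have := c2 t (by omega) l n m (by omega) (by omega) (by omega) x1 x3 x2 F2 H2 q1' q3'.symm e
    omega
  · have := c3 t (by omega) m n l (by omega) (by omega) (by omega) x2 x3 x1 G2 H2 q1'.symm q2'.symm e
    omega

/-- no exceptional large positive parameter -/
theorem half (f g h : ℤ[X]) (hf : 0 < f.natDegree) (hg : 0 < g.natDegree) (hh : 0 < h.natDegree)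
    (hfg : |f.leadingCoeff| ^ g.natDegree = |g.leadingCoeff| ^ f.natDegree)
    (hfh : |f.leadingCoeff| ^ h.natDegree = |h.leadingCoeff| ^ f.natDegree) :
    ∃ T : ℕ, ∀ t : ℕ, T ≤ t → ∀ (l m n : ℕ) (u v w : ℤ),
      ¬ Data (f.eval (t : ℤ)) (g.eval (t : ℤ)) (h.eval (t : ℤ)) l m n u v w := by
  by_cases hc : IsCoprime (f.map (Int.castRingHom ℚ)) (g.map (Int.castRingHom ℚ))
  · obtain ⟨B, T, hB⟩ := half_bound f g h hf hg hh hfg hfh
    obtain ⟨E, -, hE⟩ := roots_card f g h hf hg (by rintro rfl; simp at hh) hc B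
    obtain ⟨M, hM⟩ : ∃ M : ℕ, ∀ t ∈ E, t ≤ (M : ℤ) := by
      obtain ⟨M, hM⟩ := E.bddAbove
      refine ⟨M.toNat, fun t ht => ?_⟩
      have := hM (show t ∈ (E : Set ℤ) from ht)
      omega
    refine ⟨T + M + 1, fun t ht l m n u v w hd => ?_⟩
    obtain ⟨k1, k2, k3⟩ := hB t (by omega) l m n u v w hd
    have := hM _ (hE t l m n u v w k1 k2 k3 hd)
    omega
  · obtain ⟨T, hT⟩ := noncoprime f g hf hc
    refine ⟨T, fun t ht l m n u v w hd => ?_⟩
    obtain ⟨d1, d2, d3, d4, d5, d6, d7, d8, d9⟩ := hd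
    refine hT t ?_ (pairwise_of_rel (by omega) (by omega) (by omega) d5 d6 d7 d9 d8).1
    rw [abs_of_nonneg (by omega)]
    omega

theorem comp_neg_lc (f : ℤ[X]) : |(f.comp (-X)).leadingCoeff| = |f.leadingCoeff| := by
  have h1 : (-X : ℤ[X]).natDegree ≠ 0 := by
    rw [natDegree_neg, natDegree_X]
    exact one_ne_zero
  rw [leadingCoeff_comp h1, leadingCoeff_neg, leadingCoeff_X, abs_mul, abs_pow, abs_neg, abs_one, one_pow, mul_one]

theorem comp_neg_deg (f : ℤ[X]) : (f.comp (-X)).natDegree = f.natDegree := by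
  rw [natDegree_comp, natDegree_neg, natDegree_X, mul_one]

/-- **Finiteness** in families with equal normalised leading coefficients. -/
theorem finite_main (f g h : ℤ[X]) (hf : 0 < f.natDegree) (hg : 0 < g.natDegree) (hh : 0 < h.natDegree)
    (hfg : |f.leadingCoeff| ^ g.natDegree = |g.leadingCoeff| ^ f.natDegree)
    (hfh : |f.leadingCoeff| ^ h.natDegree = |h.leadingCoeff| ^ f.natDegree) :
    {t : ℤ | ∃ (l m n : ℕ) (u v w : ℤ), Data (f.eval t) (g.eval t) (h.eval t) l m n u v w}.Finite := by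
  obtain ⟨T1, h1⟩ := half f g h hf hg hh hfg hfh
  obtain ⟨T2, h2⟩ := half (f.comp (-X)) (g.comp (-X)) (h.comp (-X)) (by rw [comp_neg_deg]; exact hf)
    (by rw [comp_neg_deg]; exact hg) (by rw [comp_neg_deg]; exact hh)
    (by rw [comp_neg_lc, comp_neg_lc, comp_neg_deg, comp_neg_deg]; exact hfg)
    (by rw [comp_neg_lc, comp_neg_lc, comp_neg_deg, comp_neg_deg]; exact hfh)
  refine (Set.finite_Icc (-(T2 : ℤ)) (T1 : ℤ)).subset ?_
  rintro t ⟨l, m, n, u, v, w, hd⟩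
  rw [Set.mem_Icc]
  constructor
  · by_contra hlt
    push Not at hlt
    obtain ⟨r, hr⟩ := Int.eq_ofNat_of_zero_le (show 0 ≤ -t by omega)
    refine h2 r (by omega) l m n u v w ?_
    simp only [eval_comp, eval_neg, eval_X]
    rw [← hr, neg_neg]
    exact hd
  · by_contra hlt
    push Not at hlt
    obtain ⟨r, hr⟩ := Int.eq_ofNat_of_zero_le (show 0 ≤ t by omega)
    refine h1 r (by omega) l m n u v w ?_
    rw [← hr]
    exact hd

end Pool.Agent.Y754.PF
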