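import Pool.Agent.Y754.PF.Exp

/-!
# Sums of two powers of polynomials with equal normalised leading coefficients

Let `F, G, H` be integer polynomials of positive degrees whose leading coefficients are `s ^ deg` for one
positive real number `s`. If `F(t) ^ a + G(t) ^ b = H(t) ^ c` for a large `t` with exponents that are small
compared with `t`, then the exponents are bounded.
-/

set_option autoImplicit false

namespace Pool.Agent.Y754.PF

open Polynomial Filter Topology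

/-- the value as a real number -/
noncomputable def rv (F : ℤ[X]) (t : ℕ) : ℝ := ((F.eval (t : ℤ) : ℤ) : ℝ)

theorem rv_eq (F : ℤ[X]) (t : ℕ) : rv F t = (F.map (Int.castRingHom ℝ)).eval (t : ℝ) := by
  unfold rv
  have h := eval_intCast_map (Int.castRingHom ℝ) F (t : ℤ)
  rw [Int.cast_natCast] at h
  rw [h]
  rfl

theorem natDegree_mapR (F : ℤ[X]) : (F.map (Int.castRingHom ℝ)).natDegree = F.natDegree :=
  natDegree_map_eq_of_injective (RingHom.injective_int _) F

theorem leadingCoeff_mapR (F : ℤ[X]) : (F.map (Int.castRingHom ℝ)).leadingCoeff = (F.leadingCoeff : ℝ) := by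
  rw [leadingCoeff_map_of_injective (RingHom.injective_int _)]
  rfl

/-- a polynomial is its leading term, up to a relative error `O(1/t)` -/
theorem near (F : ℤ[X]) {s : ℝ} (hs : 0 < s) (hF : 0 < F.natDegree)
    (hlc : (F.leadingCoeff : ℝ) = s ^ F.natDegree) :
    ∃ K : ℝ, 0 ≤ K ∧ ∀ᶠ t : ℕ in atTop, |rv F t / (s * t) ^ F.natDegree - 1| ≤ K / t := by
  set P : ℝ[X] := F.map (Int.castRingHom ℝ) with hP
  have hPd : P.natDegree = F.natDegree := natDegree_mapR F
  have hPl : P.leadingCoeff = s ^ F.natDegree := by rw [hP, leadingCoeff_mapR, hlc]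
  have h1 : (X * P.eraseLead).degree ≤ (X ^ F.natDegree : ℝ[X]).degree := by
    rw [degree_X_pow]
    refine natDegree_le_iff_degree_le.1 ?_
    refine natDegree_mul_le.trans ?_
    have h2 := P.eraseLead_natDegree_le
    have h3 : (X : ℝ[X]).natDegree = 1 := natDegree_X
    omega
  have h4 := Polynomial.isBigO_of_degree_le (X * P.eraseLead) (X ^ F.natDegree : ℝ[X]) h1
  obtain ⟨K, hK0, hK⟩ := h4.exists_nonneg
  rw [Asymptotics.isBigOWith_iff] at hK
  refine ⟨K / s ^ F.natDegree, by positivity, ?_⟩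
  have h5 := tendsto_natCast_atTop_atTop (R := ℝ) |>.eventually hK
  filter_upwards [h5, eventually_gt_atTop 0] with t ht ht0
  have ht0' : (0 : ℝ) < t := by exact_mod_cast ht0
  have hsd : (0 : ℝ) < s ^ F.natDegree := by positivity
  have htd : (0 : ℝ) < (t : ℝ) ^ F.natDegree := by positivity
  rw [eval_mul, eval_X, eval_pow, eval_X, Real.norm_eq_abs, Real.norm_eq_abs, abs_mul, abs_of_pos ht0',
    abs_of_pos htd] at ht
  have h6 : rv F t = s ^ F.natDegree * (t : ℝ) ^ F.natDegree + P.eraseLead.eval (t : ℝ) := by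
    rw [rv_eq, ← hP]
    conv_lhs => rw [← P.eraseLead_add_monomial_natDegree_leadingCoeff]
    rw [eval_add, eval_monomial, hPl, hPd]
    ring
  have h7 : rv F t / (s * t) ^ F.natDegree - 1 = P.eraseLead.eval (t : ℝ) / (s ^ F.natDegree * (t : ℝ) ^ F.natDegree) := by
    rw [h6, mul_pow]
    field_simp
    ring
  rw [h7, abs_div, abs_of_pos (by positivity : 0 < s ^ F.natDegree * (t : ℝ) ^ F.natDegree)]
  rw [div_div, div_le_div_iff₀ (by positivity) (by positivity)]
  calc |P.eraseLead.eval (t : ℝ)| * (s ^ F.natDegree * t) = (t * |P.eraseLead.eval (t : ℝ)|) * s ^ F.natDegree := by ring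
    _ ≤ (K * (t : ℝ) ^ F.natDegree) * s ^ F.natDegree := by gcongr
    _ = _ := by ring

theorem abs_pow_sub_one_le {r e : ℝ} (h : |r - 1| ≤ e) (a : ℕ) : |r ^ a - 1| ≤ (1 + e) ^ a - 1 := by
  have he : 0 ≤ e := (abs_nonneg _).trans h
  induction a with
  | zero => simp
  | succ a ih =>
    have h1 : r ^ (a + 1) - 1 = r * (r ^ a - 1) + (r - 1) := by ring
    have h2 : |r| ≤ 1 + e := by
      have : |r| ≤ |r - 1| + 1 := by
        have := abs_add_le (r - 1) 1
        rw [sub_add_cancel, abs_one] at this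
        exact this
      linarith
    rw [h1]
    calc |r * (r ^ a - 1) + (r - 1)| ≤ |r| * |r ^ a - 1| + |r - 1| := by
          rw [← abs_mul]; exact abs_add_le _ _
      _ ≤ (1 + e) * ((1 + e) ^ a - 1) + e := by gcongr
      _ = _ := by ring

/-- powers with small exponents of numbers close to one -/
theorem pow_tendsto_one {ι : Type*} {l : Filter ι} {r e : ι → ℝ} {a : ι → ℕ}
    (hr : ∀ᶠ i in l, |r i - 1| ≤ e i) (ha : Tendsto (fun i => (a i : ℝ) * e i) l (𝓝 0)) :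
    Tendsto (fun i => r i ^ a i) l (𝓝 1) := by
  rw [← tendsto_sub_nhds_zero_iff]
  have h1 : Tendsto (fun i => Real.exp ((a i : ℝ) * e i) - 1) l (𝓝 0) := by
    have := (Real.continuous_exp.tendsto 0).comp ha
    rw [Real.exp_zero] at this
    have h2 := this.sub_const 1
    rw [sub_self] at h2
    exact h2
  refine squeeze_zero_norm' ?_ h1
  filter_upwards [hr] with i hi
  rw [Real.norm_eq_abs]
  refine (abs_pow_sub_one_le hi (a i)).trans ?_
  have he : 0 ≤ e i := (abs_nonneg _).trans hi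
  have h3 : (1 + e i) ^ a i ≤ Real.exp (e i) ^ a i := by
    have := Real.add_one_le_exp (e i)
    gcongr
    linarith
  rw [← Real.exp_nat_mul] at h3
  linarith

/-- `log (1 + x) / x → 1` -/
theorem log_ratio : Tendsto (fun x : ℝ => Real.log (1 + x) / x) (𝓝[≠] 0) (𝓝 1) := by
  have h1 : HasDerivAt (fun x : ℝ => Real.log (1 + x)) 1 0 := by
    have h2 : HasDerivAt (fun x : ℝ => 1 + x) 1 0 := (hasDerivAt_id (0 : ℝ)).const_add 1
    have h3 := h2.log (by norm_num)
    simpa using h3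
  have h4 := hasDerivAt_iff_tendsto_slope_zero.1 h1
  refine h4.congr fun x => ?_
  simp [smul_eq_mul, div_eq_inv_mul]

theorem one_le_zpow_of {y : ℝ} (hy : 4 < y) {k : ℤ} (h1 : 1 / 4 ≤ y ^ k) (h2 : y ^ k ≤ 4) : k = 0 := by
  have hy0 : 0 < y := by linarith
  rcases lt_trichotomy k 0 with hk | hk | hk
  · exfalso
    have h3 : y ^ k ≤ y ^ (-1 : ℤ) := zpow_le_zpow_right₀ (by linarith) (by omega)
    rw [zpow_neg_one] at h3
    have h4 : y⁻¹ < 1 / 4 := by
      rw [one_div]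
      exact inv_strictAnti₀ (by norm_num) hy
    linarith
  · exact hk
  · exfalso
    have h3 : y ^ (1 : ℤ) ≤ y ^ k := zpow_le_zpow_right₀ (by linarith) (by omega)
    rw [zpow_one] at h3
    linarith

/-- the logarithm of the quotient of two powers of polynomials with the same leading term -/
theorem psi_tendsto (F H : ℤ[X]) {s : ℝ} (hs : 0 < s) (hF : 0 < F.natDegree) (hH : 0 < H.natDegree)
    (lF : (F.leadingCoeff : ℝ) = s ^ F.natDegree) (lH : (H.leadingCoeff : ℝ) = s ^ H.natDegree)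
    (hQ : H ^ F.natDegree - F ^ H.natDegree ≠ 0) :
    ∃ (J : ℕ) (q : ℝ), q ≠ 0 ∧ Tendsto (fun t : ℕ => (t : ℝ) ^ J *
      Real.log (rv H t ^ F.natDegree / rv F t ^ H.natDegree)) atTop (𝓝 q) := by
  set Q : ℤ[X] := H ^ F.natDegree - F ^ H.natDegree with hQd
  set QR : ℝ[X] := Q.map (Int.castRingHom ℝ) with hQR
  set FR : ℝ[X] := (F ^ H.natDegree).map (Int.castRingHom ℝ) with hFR
  set HR : ℝ[X] := (H ^ F.natDegree).map (Int.castRingHom ℝ) with hHR
  have eF : FR.natDegree = F.natDegree * H.natDegree := by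
    rw [hFR, natDegree_mapR, natDegree_pow, mul_comm]
  have eH : HR.natDegree = F.natDegree * H.natDegree := by
    rw [hHR, natDegree_mapR, natDegree_pow]
  have lFR : FR.leadingCoeff = s ^ (F.natDegree * H.natDegree) := by
    rw [hFR, leadingCoeff_mapR, leadingCoeff_pow]
    push_cast
    rw [lF, ← pow_mul]
  have lHR : HR.leadingCoeff = s ^ (F.natDegree * H.natDegree) := by
    rw [hHR, leadingCoeff_mapR, leadingCoeff_pow]
    push_cast
    rw [lH, ← pow_mul, mul_comm]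
  have hsp : (0 : ℝ) < s ^ (F.natDegree * H.natDegree) := by positivity
  have hFR0 : FR ≠ 0 := by
    intro h
    rw [h, leadingCoeff_zero] at lFR
    linarith
  have hHR0 : HR ≠ 0 := by
    intro h
    rw [h, leadingCoeff_zero] at lHR
    linarith
  have hQsub : QR = HR - FR := by
    rw [hQR, hQd, Polynomial.map_sub]
  have hQR0 : QR ≠ 0 := by
    rw [hQR, Polynomial.map_ne_zero_iff (RingHom.injective_int _)]
    exact hQ
  have hdeg : QR.natDegree ≤ F.natDegree * H.natDegree := by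
    rw [hQsub]
    refine (natDegree_sub_le _ _).trans ?_
    rw [eH, eF, max_self]
  obtain ⟨J, hJ⟩ : ∃ J, J = F.natDegree * H.natDegree - QR.natDegree := ⟨_, rfl⟩
  refine ⟨J, QR.leadingCoeff / FR.leadingCoeff, div_ne_zero (leadingCoeff_ne_zero.2 hQR0)
    (leadingCoeff_ne_zero.2 hFR0), ?_⟩
  -- the ratio tends to one
  have r1 : Tendsto (fun t : ℕ => HR.eval (t : ℝ) / FR.eval (t : ℝ)) atTop (𝓝 1) := by
    have h1 := Polynomial.div_tendsto_leadingCoeff_div_of_degree_eq HR FR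
      (by rw [degree_eq_natDegree hHR0, degree_eq_natDegree hFR0, eH, eF])
    rw [lFR, lHR, div_self hsp.ne'] at h1
    exact h1.comp tendsto_natCast_atTop_atTop
  -- the first order term
  have r2 : Tendsto (fun t : ℕ => (t : ℝ) ^ J * (QR.eval (t : ℝ) / FR.eval (t : ℝ))) atTop
      (𝓝 (QR.leadingCoeff / FR.leadingCoeff)) := by
    have h1 := Polynomial.div_tendsto_leadingCoeff_div_of_degree_eq (X ^ J * QR) FR (by
      rw [degree_mul, degree_X_pow, degree_eq_natDegree hQR0, degree_eq_natDegree hFR0, eF]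
      norm_cast
      omega)
    rw [leadingCoeff_mul, leadingCoeff_X_pow, one_mul] at h1
    refine (h1.comp tendsto_natCast_atTop_atTop).congr fun t => ?_
    simp only [Function.comp_apply, eval_mul, eval_pow, eval_X]
    ring
  have hne : ∀ᶠ t : ℕ in atTop, (t : ℝ) ^ J * (QR.eval (t : ℝ) / FR.eval (t : ℝ)) ≠ 0 :=
    r2.eventually_ne (div_ne_zero (leadingCoeff_ne_zero.2 hQR0) (leadingCoeff_ne_zero.2 hFR0))
  have hFne : ∀ᶠ t : ℕ in atTop, FR.eval (t : ℝ) ≠ 0 := by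
    filter_upwards [hne] with t ht h
    rw [h, div_zero, mul_zero] at ht
    exact ht rfl
  have r3 : Tendsto (fun t : ℕ => QR.eval (t : ℝ) / FR.eval (t : ℝ)) atTop (𝓝 0) := by
    have h1 := r1.sub_const 1
    rw [sub_self] at h1
    refine h1.congr' ?_
    filter_upwards [hFne] with t ht
    rw [hQsub, eval_sub, sub_div, div_self ht]
  have r4 : Tendsto (fun t : ℕ => QR.eval (t : ℝ) / FR.eval (t : ℝ)) atTop (𝓝[≠] 0) := by
    rw [tendsto_nhdsWithin_iff]
    refine ⟨r3, ?_⟩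
    filter_upwards [hne] with t ht h
    rw [h, mul_zero] at ht
    exact ht rfl
  have r5 := r2.mul (log_ratio.comp r4)
  rw [mul_one] at r5
  refine r5.congr' ?_
  filter_upwards [hne, hFne] with t ht ht2
  have hx : QR.eval (t : ℝ) / FR.eval (t : ℝ) ≠ 0 := by
    intro h
    rw [h, mul_zero] at ht
    exact ht rfl
  have e1 : rv H t ^ F.natDegree / rv F t ^ H.natDegree = 1 + QR.eval (t : ℝ) / FR.eval (t : ℝ) := by
    have a1 : rv H t ^ F.natDegree = HR.eval (t : ℝ) := by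
      rw [rv_eq, hHR, Polynomial.map_pow, eval_pow]
    have a2 : rv F t ^ H.natDegree = FR.eval (t : ℝ) := by
      rw [rv_eq, hFR, Polynomial.map_pow, eval_pow]
    rw [a1, a2, hQsub, eval_sub, sub_div, div_self ht2]
    ring
  simp only [Function.comp_apply]
  rw [e1]
  generalize QR.eval (t : ℝ) / FR.eval (t : ℝ) = x at hx
  field_simp

/-- **The core.** Exponents which are small compared with `t` are bounded. -/
theorem core (F G H : ℤ[X]) {s : ℝ} (hs : 0 < s) (hF : 0 < F.natDegree) (hG : 0 < G.natDegree)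
    (hH : 0 < H.natDegree) (lF : (F.leadingCoeff : ℝ) = s ^ F.natDegree)
    (lG : (G.leadingCoeff : ℝ) = s ^ G.natDegree) (lH : (H.leadingCoeff : ℝ) = s ^ H.natDegree)
    (hQ : H ^ F.natDegree - F ^ H.natDegree ≠ 0) (L : ℕ → ℝ)
    (hL : Tendsto (fun t : ℕ => L t / t) atTop (𝓝 0)) :
    ∃ B T : ℕ, ∀ t : ℕ, T ≤ t → ∀ a b c : ℕ, 1 ≤ a → 1 ≤ b → 1 ≤ c → (a : ℝ) ≤ L t → (b : ℝ) ≤ L t →
      (c : ℝ) ≤ L t → (F.eval (t : ℤ)) ^ a + (G.eval (t : ℤ)) ^ b = (H.eval (t : ℤ)) ^ c →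
      (G.eval (t : ℤ)) ^ b ≤ (F.eval (t : ℤ)) ^ a → a ≤ B ∧ b ≤ B ∧ c ≤ B := by
  classical
  obtain ⟨KF, hKF0, hKF⟩ := near F hs hF lF
  obtain ⟨KG, hKG0, hKG⟩ := near G hs hG lG
  obtain ⟨KH, hKH0, hKH⟩ := near H hs hH lH
  obtain ⟨J, q, hq0, hq⟩ := psi_tendsto F H hs hF hH lF lH hQ
  obtain ⟨S, hS⟩ : ∃ S : Set (ℕ × ℕ × ℕ × ℕ), S = {x | 1 ≤ x.2.1 ∧ 1 ≤ x.2.2.1 ∧ 1 ≤ x.2.2.2 ∧
      (x.2.1 : ℝ) ≤ L x.1 ∧ (x.2.2.1 : ℝ) ≤ L x.1 ∧ (x.2.2.2 : ℝ) ≤ L x.1 ∧
      (F.eval (x.1 : ℤ)) ^ x.2.1 + (G.eval (x.1 : ℤ)) ^ x.2.2.1 = (H.eval (x.1 : ℤ)) ^ x.2.2.2 ∧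
      (G.eval (x.1 : ℤ)) ^ x.2.2.1 ≤ (F.eval (x.1 : ℤ)) ^ x.2.1} := ⟨_, rfl⟩
  obtain ⟨l, hl⟩ : ∃ l : Filter (ℕ × ℕ × ℕ × ℕ), l = comap (fun x => x.1) atTop ⊓ 𝓟 S := ⟨_, rfl⟩
  have ht : Tendsto (fun x : ℕ × ℕ × ℕ × ℕ => x.1) l atTop := by
    rw [hl]
    exact tendsto_comap.mono_left inf_le_left
  have htR : Tendsto (fun x : ℕ × ℕ × ℕ × ℕ => (x.1 : ℝ)) l atTop := tendsto_natCast_atTop_atTop.comp ht
  have hSl : ∀ᶠ x in l, x ∈ S := by
    rw [hl]
    exact Filter.Eventually.filter_mono inf_le_right (mem_principal_self S)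
  have hLx : Tendsto (fun x : ℕ × ℕ × ℕ × ℕ => L x.1 / x.1) l (𝓝 0) := hL.comp ht
  have ht1 : ∀ᶠ x in l, (1 : ℝ) ≤ x.1 := htR.eventually_ge_atTop 1
  -- exponents are small
  have small : ∀ e : ℕ × ℕ × ℕ × ℕ → ℕ, (∀ᶠ x in l, (e x : ℝ) ≤ L x.1) →
      Tendsto (fun x => (e x : ℝ) / x.1) l (𝓝 0) := by
    intro e he
    refine squeeze_zero' (Eventually.of_forall fun x => by positivity) ?_ hLx
    filter_upwards [he, ht1] with x h1 h2
    gcongr
  have sa := small (fun x => x.2.1) (by filter_upwards [hSl] with x hx; rw [hS] at hx; exact hx.2.2.2.1)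
  have sb := small (fun x => x.2.2.1) (by filter_upwards [hSl] with x hx; rw [hS] at hx; exact hx.2.2.2.2.1)
  have sc := small (fun x => x.2.2.2) (by filter_upwards [hSl] with x hx; rw [hS] at hx; exact hx.2.2.2.2.2.1)
  -- the powers are close to the powers of the leading terms
  have pw : ∀ (P : ℤ[X]) (K : ℝ), (∀ᶠ t : ℕ in atTop, |rv P t / (s * t) ^ P.natDegree - 1| ≤ K / t) →
      ∀ e : ℕ × ℕ × ℕ × ℕ → ℕ, Tendsto (fun x => (e x : ℝ) / x.1) l (𝓝 0) →
      Tendsto (fun x => (rv P x.1 / (s * x.1) ^ P.natDegree) ^ e x) l (𝓝 1) := by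
    intro P K hK e he
    refine pow_tendsto_one (e := fun x => K / x.1) (ht.eventually hK) ?_
    have h1 := he.mul_const K
    rw [zero_mul] at h1
    refine h1.congr fun x => ?_
    ring
  have pF := pw F KF hKF (fun x => x.2.1) sa
  have pG := pw G KG hKG (fun x => x.2.2.1) sb
  have pH := pw H KH hKH (fun x => x.2.2.2) sc
  -- positivity
  have posP : ∀ (P : ℤ[X]) (K : ℝ), (∀ᶠ t : ℕ in atTop, |rv P t / (s * t) ^ P.natDegree - 1| ≤ K / t) →
      ∀ᶠ x in l, 0 < rv P x.1 := by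
    intro P K hK
    have h1 : Tendsto (fun t : ℕ => K / (t : ℝ)) atTop (𝓝 0) := tendsto_const_div_atTop_nhds_zero_nat K
    have h0 : ∀ᶠ t : ℕ in atTop, 0 < rv P t := by
      filter_upwards [hK, h1.eventually (gt_mem_nhds (show (0 : ℝ) < 1 by norm_num)), eventually_gt_atTop 0]
        with t h2 h3 h4
      have h5 := (abs_le.1 h2).1
      have h6 : 0 < rv P t / (s * t) ^ P.natDegree := by linarith
      have h7 : (0 : ℝ) < (s * t) ^ P.natDegree := by
        have : (0 : ℝ) < t := by exact_mod_cast h4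
        positivity
      exact (div_pos_iff_of_pos_right h7).1 h6
    exact ht.eventually h0
  have posF := posP F KF hKF
  have posG := posP G KG hKG
  have posH := posP H KH hKH
  obtain ⟨y, hyd⟩ : ∃ y : ℕ × ℕ × ℕ × ℕ → ℝ, y = fun x => s * x.1 := ⟨_, rfl⟩
  have hy : Tendsto y l atTop := by
    rw [hyd]
    exact Tendsto.const_mul_atTop hs htR
  have hy4 : ∀ᶠ x in l, 4 < y x := hy.eventually_gt_atTop 4
  -- the facts for one point
  have facts : ∀ᶠ x in l, (rv F x.1) ^ x.2.1 + (rv G x.1) ^ x.2.2.1 = (rv H x.1) ^ x.2.2.2 ∧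
      (rv G x.1) ^ x.2.2.1 ≤ (rv F x.1) ^ x.2.1 ∧ 1 ≤ x.2.1 ∧ 1 ≤ x.2.2.1 ∧ 1 ≤ x.2.2.2 := by
    filter_upwards [hSl] with x hx
    rw [hS] at hx
    obtain ⟨h1, h2, h3, -, -, -, h4, h5⟩ := hx
    refine ⟨?_, ?_, h1, h2, h3⟩
    · unfold rv
      exact_mod_cast h4
    · unfold rv
      exact_mod_cast h5
  -- the exponents of the two large powers
  have hFH := pF.div pH one_ne_zero
  have hHF := pH.div pF one_ne_zero
  have hFG := pF.div pG one_ne_zero
  rw [div_one] at hFH hHF hFG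
  have st3 : ∀ᶠ x in l, ((H.natDegree * x.2.2.2 : ℕ) : ℤ) - ((F.natDegree * x.2.1 : ℕ) : ℤ) = 0 := by
    filter_upwards [facts, posF, posG, posH, hy4, hFH.eventually (lt_mem_nhds (show (1 / 2 : ℝ) < 1 by norm_num)),
      hFH.eventually (gt_mem_nhds (show (1 : ℝ) < 2 by norm_num))] with x h1 h2 h3 h4 h5 h6 h7
    obtain ⟨g1, g2, -, -, -⟩ := h1
    have hy0 : 0 < y x := by linarith
    have ye : y x = s * x.1 := by rw [hyd]
    simp only [Pi.div_apply] at h6 h7
    rw [← ye] at h6 h7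
    have A0 : 0 < rv F x.1 ^ x.2.1 := by positivity
    have B0 : 0 < rv G x.1 ^ x.2.2.1 := by positivity
    have C0 : 0 < rv H x.1 ^ x.2.2.2 := by positivity
    have e1 : y x ^ (((H.natDegree * x.2.2.2 : ℕ) : ℤ) - ((F.natDegree * x.2.1 : ℕ) : ℤ)) =
        (rv H x.1 ^ x.2.2.2 / rv F x.1 ^ x.2.1) *
        ((rv F x.1 / y x ^ F.natDegree) ^ x.2.1 / (rv H x.1 / y x ^ H.natDegree) ^ x.2.2.2) := by
      rw [zpow_sub₀ hy0.ne', zpow_natCast, zpow_natCast, div_pow, div_pow, ← pow_mul, ← pow_mul]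
      field_simp
    have e2 : 1 ≤ rv H x.1 ^ x.2.2.2 / rv F x.1 ^ x.2.1 := by
      rw [le_div_iff₀ A0, one_mul]
      linarith
    have e3 : rv H x.1 ^ x.2.2.2 / rv F x.1 ^ x.2.1 ≤ 2 := by
      rw [div_le_iff₀ A0]
      linarith
    apply one_le_zpow_of h5
    · rw [e1]
      nlinarith
    · rw [e1]
      nlinarith
  -- the small quotient
  have zpos : ∀ᶠ x in l, 0 < rv G x.1 ^ x.2.2.1 / rv F x.1 ^ x.2.1 := by
    filter_upwards [posF, posG] with x h2 h3
    positivity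
  have zlim : Tendsto (fun x : ℕ × ℕ × ℕ × ℕ => rv G x.1 ^ x.2.2.1 / rv F x.1 ^ x.2.1) l (𝓝 0) := by
    have h1 := hHF.sub_const 1
    rw [sub_self] at h1
    refine h1.congr' ?_
    filter_upwards [facts, posF, posG, posH, hy4, st3] with x h1 h2 h3 h4 h5 h6
    obtain ⟨g1, g2, -, -, -⟩ := h1
    have hy0 : 0 < y x := by linarith
    have ye : s * x.1 = y x := by rw [hyd]
    have A0 : 0 < rv F x.1 ^ x.2.1 := by positivity
    have e0 : H.natDegree * x.2.2.2 = F.natDegree * x.2.1 := by omega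
    simp only [Pi.div_apply]
    rw [ye, div_pow, div_pow, ← pow_mul, ← pow_mul, e0, ← g1]
    field_simp
    ring
  have zlim' : Tendsto (fun x : ℕ × ℕ × ℕ × ℕ => rv G x.1 ^ x.2.2.1 / rv F x.1 ^ x.2.1) l (𝓝[≠] 0) := by
    rw [tendsto_nhdsWithin_iff]
    exact ⟨zlim, zpos.mono fun x hx => hx.ne'⟩
  have zlog := log_ratio.comp zlim'
  have hqx := (hq.comp ht).div zlog one_ne_zero
  rw [div_one] at hqx
  have hw := hqx.mul hFG
  rw [mul_one] at hw
  have hdF : (0 : ℝ) < F.natDegree := by exact_mod_cast hF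
  have hlim : Tendsto (fun x : ℕ × ℕ × ℕ × ℕ => y x ^ (((G.natDegree * x.2.2.1 : ℕ) : ℤ) -
      ((F.natDegree * x.2.1 : ℕ) : ℤ) + (J : ℤ)) / (x.2.2.2 : ℝ)) l (𝓝 (q * (s ^ J / F.natDegree))) := by
    refine (hw.mul_const (s ^ J / (F.natDegree : ℝ))).congr' ?_
    filter_upwards [facts, posF, posG, posH, hy4, st3, ht1] with x h1 h2 h3 h4 h5 h6 h7
    obtain ⟨g1, g2, g3, g4, g5⟩ := h1
    have hy0 : 0 < y x := by linarith
    have ye : s * x.1 = y x := by rw [hyd]
    have A0 : 0 < rv F x.1 ^ x.2.1 := by positivity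
    have B0 : 0 < rv G x.1 ^ x.2.2.1 := by positivity
    have e0 : H.natDegree * x.2.2.2 = F.natDegree * x.2.1 := by omega
    have t0 : (0 : ℝ) < x.1 := by linarith
    have c0 : (0 : ℝ) < x.2.2.2 := by exact_mod_cast (show 0 < x.2.2.2 by omega)
    simp only [Pi.div_apply, Pi.mul_apply, Function.comp_apply]
    -- the logarithm
    have l1 : (F.natDegree : ℝ) * Real.log (1 + rv G x.1 ^ x.2.2.1 / rv F x.1 ^ x.2.1) =
        (x.2.2.2 : ℝ) * Real.log (rv H x.1 ^ F.natDegree / rv F x.1 ^ H.natDegree) := by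
      have k1 : 1 + rv G x.1 ^ x.2.2.1 / rv F x.1 ^ x.2.1 = rv H x.1 ^ x.2.2.2 / rv F x.1 ^ x.2.1 := by
        rw [← g1]
        field_simp
      have k2 : (H.natDegree : ℝ) * x.2.2.2 = F.natDegree * x.2.1 := by exact_mod_cast e0
      rw [k1, Real.log_div (by positivity) (by positivity), Real.log_div (by positivity) (by positivity),
        Real.log_pow, Real.log_pow, Real.log_pow, Real.log_pow]
      linear_combination (-Real.log (rv F x.1)) * (-k2)
    have z0 : 0 < rv G x.1 ^ x.2.2.1 / rv F x.1 ^ x.2.1 := by positivity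
    have l2 : 0 < Real.log (1 + rv G x.1 ^ x.2.2.1 / rv F x.1 ^ x.2.1) := Real.log_pos (by linarith)
    have l3 : Real.log (rv H x.1 ^ F.natDegree / rv F x.1 ^ H.natDegree) =
        (F.natDegree : ℝ) * Real.log (1 + rv G x.1 ^ x.2.2.1 / rv F x.1 ^ x.2.1) / x.2.2.2 := by
      rw [l1]
      field_simp
    rw [l3]
    have yz : y x ^ (((G.natDegree * x.2.2.1 : ℕ) : ℤ) - ((F.natDegree * x.2.1 : ℕ) : ℤ) + (J : ℤ)) =
        y x ^ (G.natDegree * x.2.2.1) / y x ^ (F.natDegree * x.2.1) * (s ^ J * (x.1 : ℝ) ^ J) := by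
      rw [zpow_add₀ hy0.ne', zpow_sub₀ hy0.ne', zpow_natCast, zpow_natCast, zpow_natCast, ← mul_pow, ye]
    rw [yz, ye, div_pow, div_pow, ← pow_mul, ← pow_mul]
    generalize Real.log (1 + rv G x.1 ^ x.2.2.1 / rv F x.1 ^ x.2.1) = lg at l2
    field_simp
  -- the conclusion
  obtain ⟨ρ, hρd⟩ : ∃ ρ, ρ = q * (s ^ J / (F.natDegree : ℝ)) := ⟨_, rfl⟩
  rw [← hρd] at hlim
  have hρ0 : ρ ≠ 0 := by
    rw [hρd]
    exact mul_ne_zero hq0 (by positivity)
  have hpos : ∀ᶠ x in l, 0 < y x ^ (((G.natDegree * x.2.2.1 : ℕ) : ℤ) -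
      ((F.natDegree * x.2.1 : ℕ) : ℤ) + (J : ℤ)) / (x.2.2.2 : ℝ) := by
    filter_upwards [facts, hy4] with x h1 h2
    obtain ⟨-, -, -, -, g5⟩ := h1
    have hy0 : 0 < y x := by linarith
    have c0 : (0 : ℝ) < x.2.2.2 := by exact_mod_cast (show 0 < x.2.2.2 by omega)
    positivity
  have goal : ∃ B : ℕ, ∀ᶠ x in l, x.2.1 ≤ B ∧ x.2.2.1 ≤ B ∧ x.2.2.2 ≤ B := by
    rcases lt_or_gt_of_ne hρ0 with hn | hp
    · refine ⟨0, ?_⟩
      filter_upwards [hlim.eventually (gt_mem_nhds hn), hpos] with x h1 h2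
      exfalso
      linarith
    · have hcy : Tendsto (fun x => (x.2.2.2 : ℝ) / y x) l (𝓝 0) := by
        have h1 := sc.mul_const (1 / s)
        rw [zero_mul] at h1
        refine h1.congr fun x => ?_
        rw [hyd]
        ring
      refine ⟨(H.natDegree + 1) * ⌈2 / ρ⌉₊, ?_⟩
      filter_upwards [facts, hy4, st3, hlim.eventually (gt_mem_nhds (show ρ < ρ + 1 by linarith)),
        hlim.eventually (lt_mem_nhds (show ρ / 2 < ρ by linarith)),
        hcy.eventually (gt_mem_nhds (show (0 : ℝ) < 1 / (ρ + 1) by positivity)),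
        hy.eventually_gt_atTop (2 / ρ)] with x h1 h2 h3 h4 h5 h6 h7
      obtain ⟨-, -, g3, g4, g5⟩ := h1
      have hy0 : 0 < y x := by linarith
      have c0 : (0 : ℝ) < x.2.2.2 := by exact_mod_cast (show 0 < x.2.2.2 by omega)
      have c1 : (1 : ℝ) ≤ x.2.2.2 := by exact_mod_cast g5
      obtain ⟨e, he⟩ : ∃ e : ℤ, e = ((G.natDegree * x.2.2.1 : ℕ) : ℤ) - ((F.natDegree * x.2.1 : ℕ) : ℤ) + (J : ℤ) :=
        ⟨_, rfl⟩
      rw [← he] at h4 h5
      have e0 : e = 0 := by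
        rcases lt_trichotomy e 0 with h | h | h
        · exfalso
          have k1 : y x ^ e ≤ y x ^ (-1 : ℤ) := zpow_le_zpow_right₀ (by linarith) (by omega)
          rw [zpow_neg_one] at k1
          have k2 : y x ^ e / (x.2.2.2 : ℝ) ≤ (y x)⁻¹ := by
            refine le_trans (div_le_self (by positivity) c1) k1
          have k3 : (y x)⁻¹ < ρ / 2 := by
            rw [inv_lt_comm₀ hy0 (by positivity), inv_div]
            exact h7
          linarith
        · exact h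
        · exfalso
          have k1 : y x ^ (1 : ℤ) ≤ y x ^ e := zpow_le_zpow_right₀ (by linarith) (by omega)
          rw [zpow_one] at k1
          rw [div_lt_iff₀ c0] at h4
          rw [div_lt_div_iff₀ hy0 (by positivity)] at h6
          nlinarith
      rw [e0, zpow_zero, lt_div_iff₀ c0] at h5
      have hcle : x.2.2.2 ≤ ⌈2 / ρ⌉₊ := by
        have k1 : (x.2.2.2 : ℝ) < 2 / ρ := by
          rw [lt_div_iff₀ hp]
          linarith
        have k2 := k1.le.trans (Nat.le_ceil (2 / ρ))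
        exact_mod_cast k2
      have m1 : H.natDegree * x.2.2.2 = F.natDegree * x.2.1 := by omega
      have m2 : G.natDegree * x.2.2.1 ≤ F.natDegree * x.2.1 := by omega
      have m3 : H.natDegree * x.2.2.2 ≤ H.natDegree * ⌈2 / ρ⌉₊ := Nat.mul_le_mul le_rfl hcle
      have m4 : x.2.1 ≤ F.natDegree * x.2.1 := Nat.le_mul_of_pos_left _ hF
      have m5 : x.2.2.1 ≤ G.natDegree * x.2.2.1 := Nat.le_mul_of_pos_left _ hG
      have m6 : (H.natDegree + 1) * ⌈2 / ρ⌉₊ = H.natDegree * ⌈2 / ρ⌉₊ + ⌈2 / ρ⌉₊ := by ring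
      refine ⟨?_, ?_, ?_⟩ <;> omega
  obtain ⟨B, hB⟩ := goal
  rw [hl, eventually_inf_principal, eventually_comap] at hB
  obtain ⟨T, hT⟩ := eventually_atTop.1 hB
  refine ⟨B, T, fun t ht' a b c ha hb hc hLa hLb hLc heq hle => ?_⟩
  have := hT t ht' (t, a, b, c) rfl
  rw [hS] at this
  exact this ⟨ha, hb, hc, hLa, hLb, hLc, heq, hle⟩

end Pool.Agent.Y754.PF
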