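import Pool.Agent.Y902.FB.ExR

/-!
# Exponents of primitive solutions, and values of polynomials

Preparations: the exponents of a primitive solution of `x ^ l + y ^ m = z ^ n` are at most a power of the
logarithm of the largest base (integers with signs, any order), and bounds for values of polynomials.
-/

set_option autoImplicit false

namespace Pool.Agent.Y754.PF

open Polynomial

/-- the three integers are pairwise coprime -/
def PC (x y z : ℤ) : Prop := IsCoprime x y ∧ IsCoprime x z ∧ IsCoprime y z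

/-- a signed three term relation between coprime integers is pairwise coprime -/
theorem pairwise_of_rel {x y z u v w : ℤ} {l m n : ℕ} (hl : 1 ≤ l) (hm : 1 ≤ m) (hn : 1 ≤ n)
    (hu : |u| = 1) (hv : |v| = 1) (hw : |w| = 1)
    (h : u * x ^ l + v * y ^ m + w * z ^ n = 0) (hg : Int.gcd (Int.gcd x y) z = 1) : PC x y z := by
  have hu' : u = 1 ∨ u = -1 := by
    rcases abs_cases u with h | h <;> omega
  have hv' : v = 1 ∨ v = -1 := by
    rcases abs_cases v with h | h <;> omega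
  have hw' : w = 1 ∨ w = -1 := by
    rcases abs_cases w with h | h <;> omega
  have key : ∀ p : ℕ, p.Prime → ¬ ((p : ℤ) ∣ x ∧ (p : ℤ) ∣ y ∧ (p : ℤ) ∣ z) := by
    rintro p hp ⟨h1, h2, h3⟩
    have h4 : (p : ℤ) ∣ Int.gcd x y := Int.dvd_coe_gcd h1 h2
    have h5 : (p : ℤ) ∣ Int.gcd (Int.gcd x y) z := Int.dvd_coe_gcd h4 h3
    rw [hg] at h5
    have h6 : p ∣ 1 := by exact_mod_cast h5
    exact hp.one_lt.ne' (Nat.dvd_one.1 h6)
  have hcop : ∀ u v : ℤ, (∀ p : ℕ, p.Prime → (p : ℤ) ∣ u → (p : ℤ) ∣ v → False) → IsCoprime u v := by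
    intro u v huv
    rw [Int.isCoprime_iff_gcd_eq_one]
    by_contra hne
    obtain ⟨p, hp, hpd⟩ := Nat.exists_prime_and_dvd hne
    have h1 : (p : ℤ) ∣ Int.gcd u v := by exact_mod_cast hpd
    exact huv p hp (h1.trans (Int.gcd_dvd_left _ _)) (h1.trans (Int.gcd_dvd_right _ _))
  refine ⟨hcop x y fun p hp h1 h2 => ?_, hcop x z fun p hp h1 h2 => ?_, hcop y z fun p hp h1 h2 => ?_⟩
  all_goals have hpi : Prime (p : ℤ) := Nat.prime_iff_prime_int.1 hp
  · refine key p hp ⟨h1, h2, hpi.dvd_of_dvd_pow (n := n) ?_⟩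
    have e : z ^ n = -(w * (u * x ^ l + v * y ^ m)) := by
      rcases hw' with rfl | rfl <;> linarith
    rw [e]
    exact (dvd_mul_of_dvd_right (dvd_add (dvd_mul_of_dvd_right (dvd_pow h1 (by omega)) _)
      (dvd_mul_of_dvd_right (dvd_pow h2 (by omega)) _)) _).neg_right
  · refine key p hp ⟨h1, hpi.dvd_of_dvd_pow (n := m) ?_, h2⟩
    have e : y ^ m = -(v * (u * x ^ l + w * z ^ n)) := by
      rcases hv' with rfl | rfl <;> linarith
    rw [e]
    exact (dvd_mul_of_dvd_right (dvd_add (dvd_mul_of_dvd_right (dvd_pow h1 (by omega)) _)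
      (dvd_mul_of_dvd_right (dvd_pow h2 (by omega)) _)) _).neg_right
  · refine key p hp ⟨hpi.dvd_of_dvd_pow (n := l) ?_, h1, h2⟩
    have e : x ^ l = -(u * (v * y ^ m + w * z ^ n)) := by
      rcases hu' with rfl | rfl <;> linarith
    rw [e]
    exact (dvd_mul_of_dvd_right (dvd_add (dvd_mul_of_dvd_right (dvd_pow h1 (by omega)) _)
      (dvd_mul_of_dvd_right (dvd_pow h2 (by omega)) _)) _).neg_right

theorem cop_abs {x y : ℤ} (h : IsCoprime x y) : IsCoprime |x| |y| := by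
  rw [Int.isCoprime_iff_gcd_eq_one] at h ⊢
  change Nat.gcd |x|.natAbs |y|.natAbs = 1
  rw [Int.natAbs_abs, Int.natAbs_abs]
  exact h

/-- **The exponents** of a positive solution in coprime bases `≥ 2` are at most a power of the logarithm of any
upper bound for the bases. -/
theorem exp_pos : ∃ (D : ℝ) (κ : ℕ), 0 < D ∧ ∀ (x y z : ℤ) (l m n : ℕ) (M : ℝ), 2 ≤ x → 2 ≤ y → 2 ≤ z →
    PC x y z → 2 ≤ l → 2 ≤ m → 2 ≤ n → x ^ l + y ^ m = z ^ n → (x : ℝ) ≤ M → (y : ℝ) ≤ M → (z : ℝ) ≤ M →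
    (l : ℝ) ≤ D * Real.log M ^ κ ∧ (m : ℝ) ≤ D * Real.log M ^ κ ∧ (n : ℝ) ≤ D * Real.log M ^ κ := by
  obtain ⟨D, κ, hD, h⟩ := Pool.Agent.Y902.FB.exp_bound_real
  refine ⟨D, κ, hD, ?_⟩
  intro x y z l m n M hx hy hz hc hl hm hn he hxM hyM hzM
  obtain ⟨a, rfl⟩ := Int.eq_ofNat_of_zero_le (show 0 ≤ x by omega)
  obtain ⟨b, rfl⟩ := Int.eq_ofNat_of_zero_le (show 0 ≤ y by omega)
  obtain ⟨c, rfl⟩ := Int.eq_ofNat_of_zero_le (show 0 ≤ z by omega)
  have ha : 2 ≤ a := by exact_mod_cast hx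
  have hb : 2 ≤ b := by exact_mod_cast hy
  have hcc : 2 ≤ c := by exact_mod_cast hz
  obtain ⟨c1, c2, c3⟩ := hc
  obtain ⟨k1, k2, k3⟩ := h a b c l m n (by omega) (by omega) (by omega) (Nat.isCoprime_iff_coprime.1 c1)
    (Nat.isCoprime_iff_coprime.1 c2) (Nat.isCoprime_iff_coprime.1 c3) hl hm hn (by exact_mod_cast he)
  have hmax : ((max a (max b c) : ℕ) : ℝ) ≤ M := by
    push_cast
    exact max_le (by exact_mod_cast hxM) (max_le (by exact_mod_cast hyM) (by exact_mod_cast hzM))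
  have h2 : (1 : ℝ) ≤ ((max a (max b c) : ℕ) : ℝ) := by
    have : 1 ≤ max a (max b c) := le_trans (by omega) (le_max_left _ _)
    exact_mod_cast this
  have hlog : D * Real.log ((max a (max b c) : ℕ) : ℝ) ^ κ ≤ D * Real.log M ^ κ := by
    have h3 := Real.log_le_log (by linarith) hmax
    have h4 := Real.log_nonneg h2
    gcongr
  exact ⟨(k1 ha).trans hlog, (k2 hb).trans hlog, k3.trans hlog⟩

/-- **The exponents** of a signed relation. -/
theorem exp_rel : ∃ (D : ℝ) (κ : ℕ), 0 < D ∧ ∀ (x y z u v w : ℤ) (l m n : ℕ) (M : ℝ), 2 ≤ |x| → 2 ≤ |y| →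
    2 ≤ |z| → |u| = 1 → |v| = 1 → |w| = 1 → Int.gcd (Int.gcd x y) z = 1 → 2 ≤ l → 2 ≤ m → 2 ≤ n →
    u * x ^ l + v * y ^ m + w * z ^ n = 0 → (|x| : ℝ) ≤ M → (|y| : ℝ) ≤ M → (|z| : ℝ) ≤ M →
    (l : ℝ) ≤ D * Real.log M ^ κ ∧ (m : ℝ) ≤ D * Real.log M ^ κ ∧ (n : ℝ) ≤ D * Real.log M ^ κ := by
  obtain ⟨D, κ, hD, h⟩ := exp_pos
  refine ⟨D, κ, hD, ?_⟩
  intro x y z u v w l m n M hx hy hz hu hv hw hg hl hm hn he hxM hyM hzM
  obtain ⟨c1, c2, c3⟩ := pairwise_of_rel (by omega) (by omega) (by omega) hu hv hw he hg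
  have c1' := cop_abs c1
  have c2' := cop_abs c2
  have c3' := cop_abs c3
  have hxM' : ((|x| : ℤ) : ℝ) ≤ M := by rw [Int.cast_abs]; exact hxM
  have hyM' : ((|y| : ℤ) : ℝ) ≤ M := by rw [Int.cast_abs]; exact hyM
  have hzM' : ((|z| : ℤ) : ℝ) ≤ M := by rw [Int.cast_abs]; exact hzM
  -- one of the three absolute values is the sum of the two others
  have ab : ∀ (s r : ℤ) (k : ℕ), |s| = 1 → |s * r ^ k| = |r| ^ k := by
    intro s r k hs
    rw [abs_mul, hs, one_mul, abs_pow]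
  have key : |x| ^ l + |y| ^ m = |z| ^ n ∨ |x| ^ l + |z| ^ n = |y| ^ m ∨ |y| ^ m + |z| ^ n = |x| ^ l := by
    have h1 := ab u x l hu
    have h2 := ab v y m hv
    have h3 := ab w z n hw
    rw [← h1, ← h2, ← h3]
    generalize u * x ^ l = X at he ⊢
    generalize v * y ^ m = Y at he ⊢
    generalize w * z ^ n = Z at he ⊢
    rcases abs_cases X with a1 | a1 <;> rcases abs_cases Y with a2 | a2 <;> rcases abs_cases Z with a3 | a3 <;> omega
  rcases key with k | k | k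
  · exact h _ _ _ _ _ _ M hx hy hz ⟨c1', c2', c3'⟩ hl hm hn k hxM' hyM' hzM'
  · obtain ⟨e1, e2, e3⟩ := h _ _ _ _ _ _ M hx hz hy ⟨c2', c1', c3'.symm⟩ hl hn hm k hxM' hzM' hyM'
    exact ⟨e1, e3, e2⟩
  · obtain ⟨e1, e2, e3⟩ := h _ _ _ _ _ _ M hy hz hx ⟨c3', c1'.symm, c2'.symm⟩ hm hn hl k hyM' hzM' hxM'
    exact ⟨e3, e1, e2⟩

/-- the values of a polynomial up to `N` are at most a power of `N` -/
theorem val_le (F : ℤ[X]) : ∃ k : ℕ, ∀ N : ℕ, 2 ≤ N → ∀ t : ℤ, |t| ≤ N → |F.eval t| ≤ (N : ℤ) ^ k := by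
  induction F using Polynomial.induction_on' with
  | add p q hp hq =>
    obtain ⟨k1, h1⟩ := hp
    obtain ⟨k2, h2⟩ := hq
    refine ⟨max k1 k2 + 1, fun N hN t ht => ?_⟩
    have hN1 : (1 : ℤ) ≤ N := by exact_mod_cast (show 1 ≤ N by omega)
    have e1 : (N : ℤ) ^ k1 ≤ (N : ℤ) ^ (max k1 k2) := pow_le_pow_right₀ hN1 (le_max_left _ _)
    have e2 : (N : ℤ) ^ k2 ≤ (N : ℤ) ^ (max k1 k2) := pow_le_pow_right₀ hN1 (le_max_right _ _)
    have e3 : (0 : ℤ) ≤ (N : ℤ) ^ (max k1 k2) := by positivity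
    have e4 : (2 : ℤ) ≤ N := by exact_mod_cast hN
    rw [eval_add]
    calc |p.eval t + q.eval t| ≤ |p.eval t| + |q.eval t| := abs_add_le _ _
      _ ≤ (N : ℤ) ^ (max k1 k2) + (N : ℤ) ^ (max k1 k2) := add_le_add ((h1 N hN t ht).trans e1) ((h2 N hN t ht).trans e2)
      _ = (N : ℤ) ^ (max k1 k2) * 2 := by ring
      _ ≤ (N : ℤ) ^ (max k1 k2) * N := by gcongr
      _ = _ := by rw [pow_succ]
  | monomial n a =>
    refine ⟨a.natAbs + n, fun N hN t ht => ?_⟩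
    rw [eval_monomial, abs_mul, abs_pow, pow_add]
    have e1 : |a| ≤ (N : ℤ) ^ a.natAbs := by
      rw [Int.abs_eq_natAbs]
      have : a.natAbs < N ^ a.natAbs := Nat.lt_pow_self (by omega)
      exact_mod_cast this.le
    have e2 : |t| ^ n ≤ (N : ℤ) ^ n := pow_le_pow_left₀ (abs_nonneg t) ht n
    gcongr

/-- a nonconstant polynomial takes large values outside a bounded set -/
theorem large_val (F : ℤ[X]) (hF : 0 < F.natDegree) (B : ℤ) : ∃ T : ℕ, ∀ t : ℤ, (T : ℤ) ≤ |t| → B ≤ |F.eval t| := by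
  have hdeg : 0 < (F.map (Int.castRingHom ℝ)).degree := by
    rw [degree_map_eq_of_injective (RingHom.injective_int _)]
    exact natDegree_pos_iff_degree_pos.1 hF
  have h1 : Filter.Tendsto (fun x : ℝ => |(F.map (Int.castRingHom ℝ)).eval x|) Filter.atTop Filter.atTop :=
    Polynomial.abs_tendsto_atTop _ hdeg
  have hdeg2 : 0 < ((F.map (Int.castRingHom ℝ)).comp (-X)).degree := by
    rw [← natDegree_pos_iff_degree_pos, natDegree_comp, natDegree_neg, natDegree_X, mul_one]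
    exact natDegree_pos_iff_degree_pos.2 hdeg
  have h2 := Polynomial.abs_tendsto_atTop _ hdeg2
  have h3 := (h1.eventually_ge_atTop (B : ℝ)).and (h2.eventually_ge_atTop (B : ℝ))
  rw [Filter.eventually_atTop] at h3
  obtain ⟨x0, hx0⟩ := h3
  refine ⟨⌈x0⌉₊, fun t ht => ?_⟩
  have h4 : x0 ≤ |(t : ℝ)| := by
    have e1 : x0 ≤ (⌈x0⌉₊ : ℝ) := Nat.le_ceil _
    have e2 : ((⌈x0⌉₊ : ℤ) : ℝ) ≤ ((|t| : ℤ) : ℝ) := by exact_mod_cast ht
    rw [Int.cast_abs] at e2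
    push_cast at e2
    linarith
  obtain ⟨g1, g2⟩ := hx0 _ h4
  have hev : ∀ s : ℤ, (F.map (Int.castRingHom ℝ)).eval (s : ℝ) = ((F.eval s : ℤ) : ℝ) := fun s => by
    rw [eval_intCast_map]
    rfl
  rcases le_or_gt 0 t with ht0 | ht0
  · rw [abs_of_nonneg (by exact_mod_cast ht0 : (0 : ℝ) ≤ t), hev] at g1
    rw [← Int.cast_abs] at g1
    exact_mod_cast g1
  · rw [abs_of_neg (by exact_mod_cast ht0 : (t : ℝ) < 0), eval_comp] at g2
    simp only [eval_neg, eval_X, neg_neg] at g2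
    rw [hev, ← Int.cast_abs] at g2
    exact_mod_cast g2

end Pool.Agent.Y754.PF
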