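import Pool.Agent.Y754.PF.Core

/-!
# Polynomial families of bases: finiteness and counting
-/

set_option autoImplicit false

namespace Pool.Agent.Y754.PF

open Polynomial Filter Topology

/-- the data of a signed primitive solution with the bases `x, y, z` -/
def Data (x y z : ℤ) (l m n : ℕ) (u v w : ℤ) : Prop :=
  2 ≤ l ∧ 2 ≤ m ∧ 2 ≤ n ∧ m * n + l * n + l * m ≤ l * m * n ∧ |u| = 1 ∧ |v| = 1 ∧ |w| = 1 ∧
    Int.gcd (Int.gcd x y) z = 1 ∧ u * x ^ l + v * y ^ m + w * z ^ n = 0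

/-! ### A common factor over the rationals -/

theorem int_factor (P : ℤ[X]) (d f : ℚ[X]) (b : ℤ) (hb : b ≠ 0) (hP : P.map (Int.castRingHom ℚ) = C (b : ℚ) * d)
    (F : ℤ[X]) (hF : F.map (Int.castRingHom ℚ) = f) (hd : d ∣ f) :
    ∃ (R : ℤ[X]) (M : ℤ), M ≠ 0 ∧ P * R = C M * F := by
  obtain ⟨r, hr⟩ := hd
  obtain ⟨c, hc⟩ := IsLocalization.integerNormalization_map_to_map (nonZeroDivisors ℤ) r
  refine ⟨IsLocalization.integerNormalization (nonZeroDivisors ℤ) r, b * (c : ℤ),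
    mul_ne_zero hb (nonZeroDivisors.coe_ne_zero c), ?_⟩
  apply Polynomial.map_injective (Int.castRingHom ℚ) (RingHom.injective_int _)
  have e1 : (algebraMap ℤ ℚ) = Int.castRingHom ℚ := rfl
  rw [e1] at hc
  rw [Polynomial.map_mul, Polynomial.map_mul, hP, hc, hF, hr, map_C]
  simp only [zsmul_eq_mul, eq_intCast, Int.cast_mul]
  rw [C_mul]
  simp only [map_intCast]
  ring

/-- if `f` and `g` have a common factor then `f(t)` and `g(t)` are not coprime for large `t` -/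
theorem noncoprime (f g : ℤ[X]) (hf : 0 < f.natDegree)
    (h : ¬ IsCoprime (f.map (Int.castRingHom ℚ)) (g.map (Int.castRingHom ℚ))) :
    ∃ T : ℕ, ∀ t : ℤ, (T : ℤ) ≤ |t| → ¬ IsCoprime (f.eval t) (g.eval t) := by
  set d := EuclideanDomain.gcd (f.map (Int.castRingHom ℚ)) (g.map (Int.castRingHom ℚ)) with hd
  have hfne : f.map (Int.castRingHom ℚ) ≠ 0 := by
    rw [Polynomial.map_ne_zero_iff (RingHom.injective_int _)]
    rintro rfl
    simp at hf
  have hd0 : d ≠ 0 := by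
    intro h0
    exact hfne (EuclideanDomain.gcd_eq_zero_iff.1 h0).1
  have hdu : ¬ IsUnit d := fun hu => h (EuclideanDomain.gcd_isUnit_iff.1 hu)
  have hddeg : 0 < d.natDegree := by
    rw [Nat.pos_iff_ne_zero]
    intro h0
    apply hdu
    rw [Polynomial.isUnit_iff_degree_eq_zero, degree_eq_natDegree hd0, h0]
    rfl
  obtain ⟨b, hb⟩ := IsLocalization.integerNormalization_map_to_map (nonZeroDivisors ℤ) d
  set P := IsLocalization.integerNormalization (nonZeroDivisors ℤ) d with hPd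
  have e1 : (algebraMap ℤ ℚ) = Int.castRingHom ℚ := rfl
  rw [e1] at hb
  have hb0 : (b : ℤ) ≠ 0 := nonZeroDivisors.coe_ne_zero b
  have hP : P.map (Int.castRingHom ℚ) = C (((b : ℤ) : ℚ)) * d := by
    rw [hb]
    simp only [zsmul_eq_mul, map_intCast]
  have hPdeg : 0 < P.natDegree := by
    have h1 : (P.map (Int.castRingHom ℚ)).natDegree = P.natDegree :=
      natDegree_map_eq_of_injective (RingHom.injective_int _) P
    rw [← h1, hP, natDegree_C_mul (by exact_mod_cast hb0)]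
    exact hddeg
  obtain ⟨R1, M1, hM1, h1⟩ := int_factor P d _ b hb0 hP f rfl (EuclideanDomain.gcd_dvd_left _ _)
  obtain ⟨R2, M2, hM2, h2⟩ := int_factor P d _ b hb0 hP g rfl (EuclideanDomain.gcd_dvd_right _ _)
  obtain ⟨T, hT⟩ := large_val P hPdeg (|M1 * M2| + 1)
  refine ⟨T, fun t ht hcop => ?_⟩
  have h3 := hT t ht
  obtain ⟨x, y, hxy⟩ := hcop
  have d1 : P.eval t ∣ M1 * f.eval t := ⟨R1.eval t, by
    have := congrArg (fun p => p.eval t) h1
    simp only [eval_mul, eval_C] at this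
    exact this.symm⟩
  have d2 : P.eval t ∣ M2 * g.eval t := ⟨R2.eval t, by
    have := congrArg (fun p => p.eval t) h2
    simp only [eval_mul, eval_C] at this
    exact this.symm⟩
  have d3 : P.eval t ∣ M1 * M2 := by
    have e : M1 * M2 = M1 * f.eval t * (M2 * x) + M2 * g.eval t * (M1 * y) := by
      linear_combination (-M1 * M2) * hxy
    rw [e]
    exact dvd_add (dvd_mul_of_dvd_left d1 _) (dvd_mul_of_dvd_left d2 _)
  have d4 := Int.le_of_dvd (abs_pos.2 (mul_ne_zero hM1 hM2)) ((dvd_abs _ _).2 ((abs_dvd _ _).2 d3))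
  linarith

/-- no polynomial identity (Mason, Stothers) -/
theorem poly_ne (f g h : ℤ[X]) (hf : 0 < f.natDegree) (hg : 0 < g.natDegree) (hh : h ≠ 0)
    (hc : IsCoprime (f.map (Int.castRingHom ℚ)) (g.map (Int.castRingHom ℚ))) {l m n : ℕ} {u v w : ℤ}
    (hl : 2 ≤ l) (hm : 2 ≤ m) (hn : 2 ≤ n) (he : m * n + l * n + l * m ≤ l * m * n) (hu : |u| = 1)
    (hv : |v| = 1) (hw : |w| = 1) : C u * f ^ l + C v * g ^ m + C w * h ^ n ≠ 0 := by
  intro h0
  have h1 := congrArg (Polynomial.map (Int.castRingHom ℚ)) h0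
  simp only [Polynomial.map_add, Polynomial.map_mul, Polynomial.map_pow, map_C, Polynomial.map_zero] at h1
  have nz : ∀ p : ℤ[X], 0 < p.natDegree → p.map (Int.castRingHom ℚ) ≠ 0 := by
    intro p hp
    rw [Polynomial.map_ne_zero_iff (RingHom.injective_int _)]
    rintro rfl
    simp at hp
  have nh : h.map (Int.castRingHom ℚ) ≠ 0 := by
    rw [Polynomial.map_ne_zero_iff (RingHom.injective_int _)]
    exact hh
  have nu : ∀ a : ℤ, |a| = 1 → (Int.castRingHom ℚ) a ≠ 0 := by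
    intro a ha h
    have : a = 0 := by
      have : ((a : ℤ) : ℚ) = 0 := h
      exact_mod_cast this
    rw [this] at ha
    simp at ha
  have h2 := Polynomial.flt_catalan (k := ℚ) (p := l) (q := m) (r := n) (by omega) (by omega) (by omega)
    (by nlinarith) (by exact_mod_cast (show l ≠ 0 by omega)) (by exact_mod_cast (show m ≠ 0 by omega))
    (by exact_mod_cast (show n ≠ 0 by omega)) (nz f hf) (nz g hg) nh hc (nu u hu) (nu v hv) (nu w hw) h1
  rw [natDegree_map_eq_of_injective (RingHom.injective_int _)] at h2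
  omega

/-! ### Counting in arbitrary polynomial families -/

/-- the finite list of the data with exponents at most `B` -/
def box (B : ℕ) : Finset (ℕ × ℕ × ℕ × ℤ × ℤ × ℤ) :=
  Finset.Icc 2 B ×ˢ Finset.Icc 2 B ×ˢ Finset.Icc 2 B ×ˢ ({1, -1} : Finset ℤ) ×ˢ ({1, -1} : Finset ℤ) ×ˢ
    ({1, -1} : Finset ℤ)

theorem mem_sign {u : ℤ} (hu : |u| = 1) : u ∈ ({1, -1} : Finset ℤ) := by
  rcases abs_cases u with h | h
  · have : u = 1 := by omega
    simp [this]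
  · have : u = -1 := by omega
    simp [this]

theorem box_card (B : ℕ) : (box B).card ≤ 8 * B ^ 3 := by
  unfold box
  simp only [Finset.card_product, Nat.card_Icc]
  have h1 : ({1, -1} : Finset ℤ).card = 2 := by decide
  rw [h1]
  have h2 : B + 1 - 2 ≤ B := by omega
  calc (B + 1 - 2) * ((B + 1 - 2) * ((B + 1 - 2) * (2 * (2 * 2)))) ≤ B * (B * (B * (2 * (2 * 2)))) := by gcongr
    _ = _ := by ring

/-- the polynomial of the data -/
noncomputable def pol (f g h : ℤ[X]) (x : ℕ × ℕ × ℕ × ℤ × ℤ × ℤ) : ℤ[X] :=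
  C x.2.2.2.1 * f ^ x.1 + C x.2.2.2.2.1 * g ^ x.2.1 + C x.2.2.2.2.2 * h ^ x.2.2.1

theorem pol_deg (f g h : ℤ[X]) (B : ℕ) (x : ℕ × ℕ × ℕ × ℤ × ℤ × ℤ) (hx : x ∈ box B) :
    (pol f g h x).natDegree ≤ B * (f.natDegree + g.natDegree + h.natDegree) := by
  unfold box at hx
  simp only [Finset.mem_product, Finset.mem_Icc] at hx
  obtain ⟨⟨-, h1⟩, ⟨-, h2⟩, ⟨-, h3⟩, -⟩ := hx
  have key : ∀ (p : ℤ[X]) (a : ℤ) (k : ℕ), k ≤ B → p.natDegree ≤ f.natDegree + g.natDegree + h.natDegree →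
      (C a * p ^ k).natDegree ≤ B * (f.natDegree + g.natDegree + h.natDegree) := by
    intro p a k hk hp
    refine (natDegree_C_mul_le _ _).trans (natDegree_pow_le.trans ?_)
    gcongr
  unfold pol
  refine (natDegree_add_le _ _).trans (max_le ((natDegree_add_le _ _).trans (max_le ?_ ?_)) ?_)
  · exact key _ _ _ h1 (by omega)
  · exact key _ _ _ h2 (by omega)
  · exact key _ _ _ h3 (by omega)

/-- all solutions with bounded exponents lie in a finite set of controlled size -/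
theorem roots_card (f g h : ℤ[X]) (hf : 0 < f.natDegree) (hg : 0 < g.natDegree) (hh : h ≠ 0)
    (hc : IsCoprime (f.map (Int.castRingHom ℚ)) (g.map (Int.castRingHom ℚ))) (B : ℕ) :
    ∃ E : Finset ℤ, E.card ≤ 8 * B ^ 3 * (B * (f.natDegree + g.natDegree + h.natDegree)) ∧
      ∀ (t : ℤ) (l m n : ℕ) (u v w : ℤ), l ≤ B → m ≤ B → n ≤ B →
        Data (f.eval t) (g.eval t) (h.eval t) l m n u v w → t ∈ E := by
  classical
  refine ⟨(box B).biUnion fun x => (pol f g h x).roots.toFinset, ?_, ?_⟩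
  · refine Finset.card_biUnion_le.trans ?_
    have h1 : ∀ x ∈ box B, ((pol f g h x).roots.toFinset).card ≤ B * (f.natDegree + g.natDegree + h.natDegree) := by
      intro x hx
      exact (Multiset.toFinset_card_le _).trans ((card_roots' _).trans (pol_deg f g h B x hx))
    refine (Finset.sum_le_card_nsmul _ _ _ h1).trans ?_
    rw [smul_eq_mul]
    exact Nat.mul_le_mul_right _ (box_card B)
  · intro t l m n u v w hl hm hn hd
    obtain ⟨d1, d2, d3, d4, d5, d6, d7, d8, d9⟩ := hd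
    rw [Finset.mem_biUnion]
    refine ⟨(l, m, n, u, v, w), ?_, ?_⟩
    · unfold box
      simp only [Finset.mem_product, Finset.mem_Icc]
      exact ⟨⟨d1, hl⟩, ⟨d2, hm⟩, ⟨d3, hn⟩, mem_sign d5, mem_sign d6, mem_sign d7⟩
    · rw [Multiset.mem_toFinset, mem_roots']
      refine ⟨poly_ne f g h hf hg hh hc d1 d2 d3 d4 d5 d6 d7, ?_⟩
      unfold pol IsRoot
      simp only [eval_add, eval_mul, eval_C, eval_pow]
      exact d9

/-- **Counting.** In every polynomial family the number of exceptional parameters up to `N` is at most a power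
of `log N`. -/
theorem count_main : ∃ κ : ℕ, ∀ f g h : ℤ[X], 0 < f.natDegree → 0 < g.natDegree → h ≠ 0 → h ≠ 1 → h ≠ -1 →
    ∃ A : ℝ, 0 < A ∧ ∀ N : ℕ, 2 ≤ N →
      {t : ℤ | |t| ≤ N ∧ ∃ (l m n : ℕ) (u v w : ℤ), Data (f.eval t) (g.eval t) (h.eval t) l m n u v w}.Finite ∧
      (({t : ℤ | |t| ≤ N ∧ ∃ (l m n : ℕ) (u v w : ℤ),
        Data (f.eval t) (g.eval t) (h.eval t) l m n u v w}.ncard : ℕ) : ℝ) ≤ A * Real.log N ^ κ := by
  classical
  obtain ⟨D, κ, hD, hexp⟩ := exp_rel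
  refine ⟨4 * κ, fun f g h hf hg hh hh1 hh2 => ?_⟩
  obtain ⟨T1, hT1⟩ := large_val f hf 2
  obtain ⟨T2, hT2⟩ := large_val g hg 2
  obtain ⟨T3, hT3⟩ : ∃ T : ℕ, ∀ t : ℤ, (T : ℤ) ≤ |t| → 2 ≤ |h.eval t| := by
    rcases Nat.eq_zero_or_pos h.natDegree with h0 | h0
    · obtain ⟨c, hc⟩ := natDegree_eq_zero.1 h0
      have hc0 : c ≠ 0 := by
        rintro rfl
        exact hh (by rw [← hc, C_0])
      have hc1 : c ≠ 1 := by
        rintro rfl
        exact hh1 (by rw [← hc, C_1])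
      have hc2 : c ≠ -1 := by
        rintro rfl
        exact hh2 (by rw [← hc, C_neg, C_1])
      refine ⟨0, fun t _ => ?_⟩
      rw [← hc, eval_C]
      rcases abs_cases c with h | h <;> omega
    · exact large_val h h0 2
  -- a finite exceptional set for the small values
  obtain ⟨T, hT⟩ : ∃ T : ℕ, T1 ≤ T ∧ T2 ≤ T ∧ T3 ≤ T ∧
      (¬ IsCoprime (f.map (Int.castRingHom ℚ)) (g.map (Int.castRingHom ℚ)) →
        ∀ t : ℤ, (T : ℤ) ≤ |t| → ¬ IsCoprime (f.eval t) (g.eval t)) := by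
    by_cases hc : IsCoprime (f.map (Int.castRingHom ℚ)) (g.map (Int.castRingHom ℚ))
    · exact ⟨T1 + T2 + T3, by omega, by omega, by omega, fun hn => absurd hc hn⟩
    · obtain ⟨T4, hT4⟩ := noncoprime f g hf hc
      exact ⟨T1 + T2 + T3 + T4, by omega, by omega, by omega, fun _ t ht => hT4 t (by push_cast at ht; omega)⟩
  obtain ⟨kf, hkf⟩ := val_le f
  obtain ⟨kg, hkg⟩ := val_le g
  obtain ⟨kh, hkh⟩ := val_le h
  obtain ⟨k, hk⟩ : ∃ k, k = kf + kg + kh := ⟨_, rfl⟩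
  obtain ⟨deg, hdeg⟩ : ∃ deg, deg = f.natDegree + g.natDegree + h.natDegree := ⟨_, rfl⟩
  -- the constant
  have hlog2 : 0 < Real.log 2 := Real.log_pos (by norm_num)
  refine ⟨(2 * T + 1) / Real.log 2 ^ (4 * κ) + 8 * (D * k ^ κ) ^ 4 * deg, by positivity, fun N hN => ?_⟩
  have hN0 : (0 : ℝ) < N := by exact_mod_cast (show 0 < N by omega)
  have hlogN : Real.log 2 ≤ Real.log N := Real.log_le_log (by norm_num) (by exact_mod_cast hN)
  have hlogN0 : 0 < Real.log N := hlog2.trans_le hlogN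
  obtain ⟨Lr, hLr⟩ : ∃ Lr : ℝ, Lr = D * (k * Real.log N) ^ κ := ⟨_, rfl⟩
  have hLr0 : 0 ≤ Lr := by rw [hLr]; positivity
  -- a large member has small exponents
  have key : ∀ t : ℤ, |t| ≤ N → (T : ℤ) ≤ |t| → ∀ (l m n : ℕ) (u v w : ℤ),
      Data (f.eval t) (g.eval t) (h.eval t) l m n u v w →
      IsCoprime (f.map (Int.castRingHom ℚ)) (g.map (Int.castRingHom ℚ)) ∧ l ≤ ⌊Lr⌋₊ ∧ m ≤ ⌊Lr⌋₊ ∧ n ≤ ⌊Lr⌋₊ := by
    intro t htN htT l m n u v w hd
    obtain ⟨d1, d2, d3, d4, d5, d6, d7, d8, d9⟩ := hd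
    have vb : ∀ (F : ℤ[X]) (j : ℕ), j ≤ k → |F.eval t| ≤ (N : ℤ) ^ j → ((|F.eval t| : ℤ) : ℝ) ≤ (N : ℝ) ^ k := by
      intro F j hj hF
      have h1 : ((|F.eval t| : ℤ) : ℝ) ≤ (N : ℝ) ^ j := by exact_mod_cast hF
      exact h1.trans (pow_le_pow_right₀ (by exact_mod_cast (show 1 ≤ N by omega)) hj)
    have b1 := vb f kf (by omega) (hkf N hN t htN)
    have b2 := vb g kg (by omega) (hkg N hN t htN)
    have b3 := vb h kh (by omega) (hkh N hN t htN)
    rw [Int.cast_abs] at b1 b2 b3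
    have h1 := hexp (f.eval t) (g.eval t) (h.eval t) u v w l m n ((N : ℝ) ^ k) (hT1 t (by omega))
      (hT2 t (by omega)) (hT3 t (by omega)) d5 d6 d7 d8 d1 d2 d3 d9 b1 b2 b3
    rw [Real.log_pow, ← hLr] at h1
    refine ⟨?_, Nat.le_floor h1.1, Nat.le_floor h1.2.1, Nat.le_floor h1.2.2⟩
    by_contra hc
    exact hT.2.2.2 hc t htT (pairwise_of_rel (by omega) (by omega) (by omega) d5 d6 d7 d9 d8).1
  obtain ⟨E, hEc, hE⟩ : ∃ E : Finset ℤ, (E.card : ℝ) ≤ 8 * Lr ^ 4 * deg ∧ ∀ t : ℤ, |t| ≤ N → (T : ℤ) ≤ |t| →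
      (∃ (l m n : ℕ) (u v w : ℤ), Data (f.eval t) (g.eval t) (h.eval t) l m n u v w) → t ∈ E := by
    by_cases hc : IsCoprime (f.map (Int.castRingHom ℚ)) (g.map (Int.castRingHom ℚ))
    · obtain ⟨E, hE1, hE2⟩ := roots_card f g h hf hg hh hc ⌊Lr⌋₊
      refine ⟨E, ?_, ?_⟩
      · have h1 : (E.card : ℝ) ≤ ((8 * ⌊Lr⌋₊ ^ 3 * (⌊Lr⌋₊ * (f.natDegree + g.natDegree + h.natDegree)) : ℕ) : ℝ) := by
          exact_mod_cast hE1
        refine h1.trans ?_
        rw [← hdeg]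
        push_cast
        have h2 : (⌊Lr⌋₊ : ℝ) ≤ Lr := Nat.floor_le hLr0
        calc 8 * (⌊Lr⌋₊ : ℝ) ^ 3 * ((⌊Lr⌋₊ : ℝ) * deg) = 8 * (⌊Lr⌋₊ : ℝ) ^ 4 * deg := by ring
          _ ≤ _ := by gcongr
      · rintro t ht1 ht2 ⟨l, m, n, u, v, w, hd⟩
        obtain ⟨-, k1, k2, k3⟩ := key t ht1 ht2 l m n u v w hd
        exact hE2 t l m n u v w k1 k2 k3 hd
    · refine ⟨∅, by simp; positivity, ?_⟩
      rintro t ht1 ht2 ⟨l, m, n, u, v, w, hd⟩
      exact absurd (key t ht1 ht2 l m n u v w hd).1 hc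
  have hsub : {t : ℤ | |t| ≤ N ∧ ∃ (l m n : ℕ) (u v w : ℤ), Data (f.eval t) (g.eval t) (h.eval t) l m n u v w} ⊆
      ((Finset.Icc (-(T : ℤ)) T ∪ E : Finset ℤ) : Set ℤ) := by
    rintro t ⟨ht1, ht2⟩
    rw [Finset.coe_union]
    rcases le_or_gt (T : ℤ) |t| with h1 | h1
    · exact Or.inr (hE t ht1 h1 ht2)
    · left
      rw [Finset.coe_Icc, Set.mem_Icc]
      rw [abs_lt] at h1
      omega
  refine ⟨(Finset.finite_toSet _).subset hsub, ?_⟩
  have hcard : {t : ℤ | |t| ≤ N ∧ ∃ (l m n : ℕ) (u v w : ℤ),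
      Data (f.eval t) (g.eval t) (h.eval t) l m n u v w}.ncard ≤ (2 * T + 1) + E.card := by
    refine (Set.ncard_le_ncard hsub (Finset.finite_toSet _)).trans ?_
    rw [Set.ncard_coe_finset]
    refine (Finset.card_union_le _ _).trans ?_
    have : (Finset.Icc (-(T : ℤ)) T).card = 2 * T + 1 := by
      rw [Int.card_Icc]
      omega
    rw [this]
  have hcard' : (({t : ℤ | |t| ≤ N ∧ ∃ (l m n : ℕ) (u v w : ℤ),
      Data (f.eval t) (g.eval t) (h.eval t) l m n u v w}.ncard : ℕ) : ℝ) ≤ (2 * T + 1) + E.card := by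
    exact_mod_cast hcard
  refine hcard'.trans ?_
  have e1 : 8 * Lr ^ 4 * deg = 8 * (D * k ^ κ) ^ 4 * deg * Real.log N ^ (4 * κ) := by
    rw [hLr, mul_pow (k : ℝ) (Real.log N) κ, ← mul_assoc, mul_pow (D * (k : ℝ) ^ κ) (Real.log N ^ κ) 4,
      ← pow_mul, mul_comm κ 4]
    ring
  have e2 : ((2 * T + 1 : ℕ) : ℝ) ≤ (2 * T + 1) / Real.log 2 ^ (4 * κ) * Real.log N ^ (4 * κ) := by
    rw [div_mul_eq_mul_div, le_div_iff₀ (by positivity)]
    push_cast
    gcongr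
  push_cast at e2
  rw [add_mul, ← e1]
  linarith

/-! ### Finiteness for equal normalised leading coefficients -/

/-- the core without the condition on the two dominating polynomials -/
theorem core' (F G H : ℤ[X]) {s : ℝ} (hs : 0 < s) (hF : 0 < F.natDegree) (hG : 0 < G.natDegree)
    (hH : 0 < H.natDegree) (lF : (F.leadingCoeff : ℝ) = s ^ F.natDegree)
    (lG : (G.leadingCoeff : ℝ) = s ^ G.natDegree) (lH : (H.leadingCoeff : ℝ) = s ^ H.natDegree) (L : ℕ → ℝ)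
    (hL : Tendsto (fun t : ℕ => L t / t) atTop (𝓝 0)) :
    ∃ B T : ℕ, ∀ t : ℕ, T ≤ t → ∀ a b c : ℕ, 1 ≤ a → 1 ≤ b → 1 ≤ c → (a : ℝ) ≤ L t → (b : ℝ) ≤ L t →
      (c : ℝ) ≤ L t → 2 ≤ F.eval (t : ℤ) → IsCoprime (F.eval (t : ℤ)) (H.eval (t : ℤ)) →
      (F.eval (t : ℤ)) ^ a + (G.eval (t : ℤ)) ^ b = (H.eval (t : ℤ)) ^ c →
      (G.eval (t : ℤ)) ^ b ≤ (F.eval (t : ℤ)) ^ a → a ≤ B ∧ b ≤ B ∧ c ≤ B := by
  by_cases hQ : H ^ F.natDegree - F ^ H.natDegree = 0
  · refine ⟨0, 0, fun t _ a b c _ _ _ _ _ _ h2 hc _ _ => ?_⟩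
    exfalso
    have h3 := congrArg (fun p => p.eval (t : ℤ)) hQ
    simp only [eval_sub, eval_pow, eval_zero] at h3
    have h4 : (H.eval (t : ℤ)) ^ F.natDegree = (F.eval (t : ℤ)) ^ H.natDegree := by linarith
    have h5 : IsCoprime ((F.eval (t : ℤ)) ^ H.natDegree) ((H.eval (t : ℤ)) ^ F.natDegree) := hc.pow
    rw [h4, isCoprime_self, Int.isUnit_iff] at h5
    have h6 : 1 < (F.eval (t : ℤ)) ^ H.natDegree := one_lt_pow₀ (by omega) hH.ne'
    rcases h5 with h5 | h5 <;> omega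
  · obtain ⟨B, T, h⟩ := core F G H hs hF hG hH lF lG lH hQ L hL
    exact ⟨B, T, fun t ht a b c ha hb hc hLa hLb hLc _ _ he hle => h t ht a b c ha hb hc hLa hLb hLc he hle⟩

/-- the core for unordered summands -/
theorem core2 (F G H : ℤ[X]) {s : ℝ} (hs : 0 < s) (hF : 0 < F.natDegree) (hG : 0 < G.natDegree)
    (hH : 0 < H.natDegree) (lF : (F.leadingCoeff : ℝ) = s ^ F.natDegree)
    (lG : (G.leadingCoeff : ℝ) = s ^ G.natDegree) (lH : (H.leadingCoeff : ℝ) = s ^ H.natDegree) (L : ℕ → ℝ)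
    (hL : Tendsto (fun t : ℕ => L t / t) atTop (𝓝 0)) :
    ∃ B T : ℕ, ∀ t : ℕ, T ≤ t → ∀ a b c : ℕ, 1 ≤ a → 1 ≤ b → 1 ≤ c → (a : ℝ) ≤ L t → (b : ℝ) ≤ L t →
      (c : ℝ) ≤ L t → 2 ≤ F.eval (t : ℤ) → 2 ≤ G.eval (t : ℤ) → IsCoprime (F.eval (t : ℤ)) (H.eval (t : ℤ)) →
      IsCoprime (G.eval (t : ℤ)) (H.eval (t : ℤ)) →
      (F.eval (t : ℤ)) ^ a + (G.eval (t : ℤ)) ^ b = (H.eval (t : ℤ)) ^ c → a ≤ B ∧ b ≤ B ∧ c ≤ B := by
  obtain ⟨B1, T1, h1⟩ := core' F G H hs hF hG hH lF lG lH L hL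
  obtain ⟨B2, T2, h2⟩ := core' G F H hs hG hF hH lG lF lH L hL
  refine ⟨B1 + B2, T1 + T2, fun t ht a b c ha hb hc hLa hLb hLc f2 g2 c1 c2 he => ?_⟩
  rcases le_total ((G.eval (t : ℤ)) ^ b) ((F.eval (t : ℤ)) ^ a) with h | h
  · have := h1 t (by omega) a b c ha hb hc hLa hLb hLc f2 c1 he h
    omega
  · have := h2 t (by omega) b a c hb ha hc hLb hLa hLc g2 c2 (by linarith) h
    omega

/-- normalisation of the sign -/
theorem pos_norm (f : ℤ[X]) (hf : 0 < f.natDegree) : ∃ F : ℤ[X], F.natDegree = f.natDegree ∧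
    F.leadingCoeff = |f.leadingCoeff| ∧ (∀ t : ℤ, |F.eval t| = |f.eval t|) ∧
    ∃ T : ℕ, ∀ t : ℕ, T ≤ t → 2 ≤ F.eval (t : ℤ) := by
  have hlc : f.leadingCoeff ≠ 0 := by
    intro h
    rw [leadingCoeff_eq_zero] at h
    rw [h] at hf
    simp at hf
  obtain ⟨ε, hε⟩ : ∃ ε, ε = f.leadingCoeff.sign := ⟨_, rfl⟩
  have hε1 : |ε| = 1 := by
    rw [hε]
    rcases lt_or_gt_of_ne hlc with h | h
    · rw [Int.sign_eq_neg_one_of_neg h]
      rfl
    · rw [Int.sign_eq_one_of_pos h]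
      rfl
  have hε0 : ε ≠ 0 := by
    rintro rfl
    simp at hε1
  have hd : (C ε * f).natDegree = f.natDegree := natDegree_C_mul hε0
  have hl : (C ε * f).leadingCoeff = |f.leadingCoeff| := by
    rw [leadingCoeff_mul, leadingCoeff_C, hε]
    exact Int.sign_mul_self_eq_abs _
  refine ⟨C ε * f, hd, hl, fun t => ?_, ?_⟩
  · rw [eval_mul, eval_C, abs_mul, hε1, one_mul]
  · have h1 : Tendsto (fun x : ℝ => ((C ε * f).map (Int.castRingHom ℝ)).eval x) atTop atTop := by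
      apply Polynomial.tendsto_atTop_of_leadingCoeff_nonneg
      · rw [← natDegree_pos_iff_degree_pos, natDegree_mapR, hd]
        exact hf
      · rw [leadingCoeff_mapR, hl]
        exact_mod_cast abs_nonneg _
    have h2 := (h1.comp tendsto_natCast_atTop_atTop).eventually_ge_atTop (2 : ℝ)
    obtain ⟨T, hT⟩ := eventually_atTop.1 h2
    refine ⟨T, fun t ht => ?_⟩
    have h3 := hT t ht
    simp only [Function.comp_apply] at h3
    rw [← rv_eq] at h3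
    unfold rv at h3
    exact_mod_cast h3

/-- the two conditions on the leading coefficients give one positive real number -/
theorem common_root (a b c : ℤ) (i j k : ℕ) (hi : 0 < i) (ha : a ≠ 0)
    (h1 : |a| ^ j = |b| ^ i) (h2 : |a| ^ k = |c| ^ i) :
    ∃ s : ℝ, 0 < s ∧ (|a| : ℝ) = s ^ i ∧ (|b| : ℝ) = s ^ j ∧ (|c| : ℝ) = s ^ k := by
  have ha' : (0 : ℝ) < |(a : ℝ)| := abs_pos.2 (by exact_mod_cast ha)
  obtain ⟨s, hs⟩ : ∃ s : ℝ, s = |(a : ℝ)| ^ ((i : ℝ)⁻¹) := ⟨_, rfl⟩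
  have hs0 : 0 < s := by rw [hs]; positivity
  have hsi : s ^ i = |(a : ℝ)| := by
    rw [hs]
    exact Real.rpow_inv_natCast_pow ha'.le hi.ne'
  have aux : ∀ (d : ℤ) (e : ℕ), |a| ^ e = |d| ^ i → (|d| : ℝ) = s ^ e := by
    intro d e h
    have h3 : (|(a : ℝ)|) ^ e = (|(d : ℝ)|) ^ i := by exact_mod_cast congrArg (fun x : ℤ => (x : ℝ)) h
    rw [← hsi, ← pow_mul, mul_comm, pow_mul] at h3
    exact (pow_left_inj₀ (abs_nonneg _) (by positivity) hi.ne').1 h3.symm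
  exact ⟨s, hs0, hsi.symm, aux b j h1, aux c k h2⟩

end Pool.Agent.Y754.PF
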